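import Pool.Agent.N956.BG.Stm

/-! Project BG (helper956), task BUD (helper78): the budget is kept. -/

set_option autoImplicit false

namespace Pool.Agent.N956.BG

open Finset Filter Topology
open scoped Classical

noncomputable section

namespace BUD

/-- the deficit -/
def Df {n : ℕ} (k : ℕ) (F : Finset (E n)) : ℕ := ∑ v : Fin n, (k - deg F v)

theorem mem_bd {α β : Type} [inst : DecidableEq β] (F : Finset α) (f : α → β) (x : β) :
    x ∈ (F.sup (fun a => ({f a} : Finset β))) ↔ ∃ a ∈ F, f a = x := by
  rw [Finset.mem_sup]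
  constructor
  · rintro ⟨a, ha, hx⟩
    exact ⟨a, ha, (Finset.mem_singleton.1 hx).symm⟩
  · rintro ⟨a, ha, hx⟩
    exact ⟨a, ha, Finset.mem_singleton.2 hx.symm⟩

/-- the filter in the definition of `deg` runs over the image of `F` in `Sym2` -/
theorem deg_eq {n : ℕ} (F : Finset (E n)) (v : Fin n) :
    deg F v = (F.filter (fun e : E n => v ∈ (e : Sym2 (Fin n)))).card := rfl

theorem deg_insert {n : ℕ} {F : Finset (E n)} {e : E n} (he : e ∉ F) (v : Fin n) :
    deg (insert e F) v = deg F v + (if v ∈ (e : Sym2 (Fin n)) then 1 else 0) := by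
  rw [deg_eq, deg_eq, Finset.filter_insert]
  split_ifs with h
  · rw [Finset.card_insert_of_notMem]
    intro h1
    exact he (Finset.mem_filter.1 h1).1
  · simp

theorem Df_insert {n k : ℕ} {F : Finset (E n)} {e : E n} (he : e ∉ F) :
    Df k (insert e F) +
      (univ.filter (fun v : Fin n => v ∈ (e : Sym2 (Fin n)) ∧ deg F v < k)).card = Df k F := by
  unfold Df
  rw [Finset.card_filter, ← Finset.sum_add_distrib]
  refine Finset.sum_congr rfl fun v _ => ?_
  rw [deg_insert he]
  by_cases h1 : v ∈ (e : Sym2 (Fin n))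
  · by_cases h2 : deg F v < k
    · rw [if_pos h1, if_pos ⟨h1, h2⟩]
      omega
    · rw [if_pos h1, if_neg (fun h => h2 h.2)]
      omega
  · rw [if_neg h1, if_neg (fun h => h1 h.1)]
    omega

theorem two {n : ℕ} (e : E n) :
    (univ.filter (fun v : Fin n => v ∈ (e : Sym2 (Fin n)))).card = 2 := by
  obtain ⟨e, he⟩ := e
  induction e with
  | _ a b =>
    have hab : a ≠ b := by simpa using he
    have : (univ.filter (fun v : Fin n => v ∈ (s(a, b) : Sym2 (Fin n)))) = {a, b} := by
      ext v
      simp
    show (univ.filter (fun v : Fin n => v ∈ (s(a, b) : Sym2 (Fin n)))).card = 2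
    rw [this, Finset.card_pair hab]

theorem inv {n k th : ℕ} (ω : Ord n) (s : ℕ) :
    (∀ e ∈ B (St k th) ω s, ((ω.symm e : Fin (n.choose 2)) : ℕ) < s) ∧
    ((B (St k th) ω s).card ≤ th →
      Df k (B (St k th) ω s) + 2 * (B (St k th) ω s).card = k * n) ∧
    (th ≤ (B (St k th) ω s).card →
      Df k (B (St k th) ω s) + (B (St k th) ω s).card + th ≤ k * n) := by
  induction s with
  | zero =>
    have h0 : Df k (∅ : Finset (E n)) = k * n := by
      unfold Df
      simp [deg_eq, mul_comm]
    refine ⟨fun e he => ?_, fun _ => ?_, fun hth => ?_⟩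
    · simp [B] at he
    · simp only [B, Finset.card_empty, h0]
      omega
    · simp only [B, Finset.card_empty] at hth ⊢
      rw [h0]
      omega
  | succ s ih =>
    obtain ⟨i0, i1, i2⟩ := ih
    set F := B (St k th) ω s with hF
    by_cases hs : s < n.choose 2
    swap
    · have : B (St k th) ω (s + 1) = F := by
        simp only [B, dif_neg hs]
        rfl
      rw [this]
      exact ⟨fun e he => (i0 e he).trans (Nat.lt_succ_self s), i1, i2⟩
    by_cases hb : St k th (ω ⟨s, hs⟩) F
    swap
    · have : B (St k th) ω (s + 1) = F := by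
        simp only [B, dif_pos hs]
        exact if_neg hb
      rw [this]
      exact ⟨fun e he => (i0 e he).trans (Nat.lt_succ_self s), i1, i2⟩
    have hB : B (St k th) ω (s + 1) = insert (ω ⟨s, hs⟩) F := by
      simp only [B, dif_pos hs]
      exact if_pos hb
    have hn : ω ⟨s, hs⟩ ∉ F := by
      intro h
      have := i0 _ h
      simp at this
    have hD := Df_insert (k := k) hn
    have hc := Finset.card_insert_of_notMem hn
    rw [hB]
    refine ⟨fun e he => ?_, ?_⟩
    · rcases Finset.mem_insert.1 he with rfl | he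
      · simp
      · exact (i0 e he).trans (Nat.lt_succ_self s)
    rcases hb with ⟨hb1, hb2⟩ | ⟨hb1, v, hv1, hv2⟩
    · have h2 : (univ.filter (fun v : Fin n => v ∈ ((ω ⟨s, hs⟩ : E n) : Sym2 (Fin n)) ∧
          deg F v < k)).card = 2 := by
        refine Eq.trans ?_ (two (ω ⟨s, hs⟩))
        congr 1
        ext v
        simp only [Finset.mem_filter, Finset.mem_univ, true_and]
        exact ⟨fun h => h.1, fun h => ⟨h, hb2 v h⟩⟩
      rw [h2] at hD
      have h3 := i1 hb1.le
      rw [hc]
      refine ⟨fun _ => by omega, fun _ => by omega⟩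
    · have h2 : 1 ≤ (univ.filter (fun v : Fin n => v ∈ ((ω ⟨s, hs⟩ : E n) : Sym2 (Fin n)) ∧
          deg F v < k)).card := by
        rw [Nat.one_le_iff_ne_zero, Finset.card_ne_zero]
        exact ⟨v, Finset.mem_filter.2 ⟨Finset.mem_univ _, hv1, hv2⟩⟩
      have h3 := i2 hb1
      rw [hc]
      refine ⟨fun _ => by omega, fun _ => by omega⟩

end BUD

theorem bud : S_BUD := by
  intro n k th h ω s
  obtain ⟨-, -, h2⟩ := BUD.inv (k := k) (th := th) ω s
  by_cases hth : th ≤ (B (St k th) ω s).card
  · have := h2 hth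
    omega
  · omega

end

end Pool.Agent.N956.BG
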