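import Pool.Agent.N956.BG.Stm

/-!
# CNT: bijections with prescribed values on `K` and with values in `F` on `J` (helper306)
-/

set_option autoImplicit false

namespace Pool.Agent.N956.BG

open Finset Filter Topology
open scoped Classical

namespace CntAux

variable {P Q : Type} [Fintype P] [Fintype Q]

theorem base (K : Finset P) (ω₀ : P ≃ Q) :
    (univ.filter (fun ω : P ≃ Q => ∀ i ∈ K, ω i = ω₀ i)).card =
      (Fintype.card P - K.card).factorial := by
  rw [← Fintype.card_subtype, ← Nat.card_eq_fintype_card]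
  let e1 : {ω : P ≃ Q // ∀ i ∈ K, ω i = ω₀ i} ≃ {f : Equiv.Perm P // ∀ a, ¬ (a ∉ K) → f a = a} :=
    { toFun := fun ω => ⟨ω.1.trans ω₀.symm, fun a ha => by
        rw [Equiv.trans_apply, ω.2 a (not_not.1 ha), Equiv.symm_apply_apply]⟩
      invFun := fun f => ⟨f.1.trans ω₀, fun a ha => by
        rw [Equiv.trans_apply, f.2 a (not_not.2 ha)]⟩
      left_inv := fun ω => by
        apply Subtype.ext
        ext a
        simp
      right_inv := fun f => by
        apply Subtype.ext
        ext a
        simp }
  rw [Nat.card_congr (e1.trans (Equiv.Perm.subtypeEquivSubtypePerm (fun a => a ∉ K)).symm),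
    Nat.card_perm, Nat.card_eq_fintype_card, Fintype.card_subtype]
  congr 1
  rw [← Finset.card_compl]
  congr 1
  ext a
  simp

theorem main (F : Finset Q) (J : Finset P) : ∀ (K : Finset P) (ω₀ : P ≃ Q), Disjoint K J →
    (univ.filter (fun ω : P ≃ Q => (∀ i ∈ K, ω i = ω₀ i) ∧ ∀ j ∈ J, ω j ∈ F)).card =
      ((F.filter (fun q => ∀ i ∈ K, ω₀ i ≠ q)).card).descFactorial J.card *
        (Fintype.card P - K.card - J.card).factorial := by
  induction J using Finset.induction_on with
  | empty =>
    intro K ω₀ _
    rw [Finset.card_empty, Nat.descFactorial_zero, one_mul, Nat.sub_zero, ← base K ω₀]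
    congr 1
    ext ω
    simp
  | insert j J' hj ih =>
    intro K ω₀ hd
    have hjK : j ∉ K := fun h => (Finset.disjoint_left.1 hd) h (Finset.mem_insert_self _ _)
    have hd' : Disjoint K J' := hd.mono_right (Finset.subset_insert _ _)
    obtain ⟨F', hF'⟩ : ∃ F', F' = F.filter (fun q => ∀ i ∈ K, ω₀ i ≠ q) := ⟨_, rfl⟩
    rw [Finset.card_eq_sum_card_fiberwise (f := fun ω : P ≃ Q => ω j) (t := F')]
    · have key : ∀ q ∈ F', ((univ.filter (fun ω : P ≃ Q => (∀ i ∈ K, ω i = ω₀ i) ∧
          ∀ j' ∈ insert j J', ω j' ∈ F)).filter (fun ω => ω j = q)).card =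
          (F'.card - 1).descFactorial J'.card *
            (Fintype.card P - (K.card + 1) - J'.card).factorial := by
        intro q hq
        have hq' : q ∈ F ∧ ∀ i ∈ K, ω₀ i ≠ q := by
          rw [hF', Finset.mem_filter] at hq
          exact hq
        obtain ⟨ω₁, hω₁⟩ : ∃ ω₁ : P ≃ Q, ω₁ = (Equiv.swap j (ω₀.symm q)).trans ω₀ := ⟨_, rfl⟩
        have h1 : ω₁ j = q := by
          rw [hω₁, Equiv.trans_apply, Equiv.swap_apply_left, Equiv.apply_symm_apply]
        have h2 : ∀ i ∈ K, ω₁ i = ω₀ i := by
          intro i hi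
          rw [hω₁, Equiv.trans_apply, Equiv.swap_apply_of_ne_of_ne]
          · rintro rfl
            exact hjK hi
          · rintro rfl
            exact hq'.2 _ hi (Equiv.apply_symm_apply _ _)
        have e1 : (univ.filter (fun ω : P ≃ Q => (∀ i ∈ K, ω i = ω₀ i) ∧
            ∀ j' ∈ insert j J', ω j' ∈ F)).filter (fun ω => ω j = q) =
            univ.filter (fun ω : P ≃ Q => (∀ i ∈ insert j K, ω i = ω₁ i) ∧
              ∀ j' ∈ J', ω j' ∈ F) := by
          ext ω
          simp only [Finset.mem_filter, Finset.mem_univ, true_and, Finset.forall_mem_insert]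
          constructor
          · rintro ⟨⟨a1, a2, a3⟩, a4⟩
            exact ⟨⟨a4.trans h1.symm, fun i hi => (a1 i hi).trans (h2 i hi).symm⟩, a3⟩
          · rintro ⟨⟨a1, a2⟩, a3⟩
            have a4 : ω j = q := a1.trans h1
            exact ⟨⟨fun i hi => (a2 i hi).trans (h2 i hi), by rw [a4]; exact hq'.1, a3⟩, a4⟩
        have hd2 : Disjoint (insert j K) J' := by
          rw [Finset.disjoint_insert_left]
          exact ⟨hj, hd'⟩
        rw [e1, ih (insert j K) ω₁ hd2, Finset.card_insert_of_notMem hjK]
        congr 2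
        have e2 : F.filter (fun q' => ∀ i ∈ insert j K, ω₁ i ≠ q') = F'.erase q := by
          ext q'
          rw [hF', Finset.mem_erase, Finset.mem_filter, Finset.mem_filter,
            Finset.forall_mem_insert, h1]
          constructor
          · rintro ⟨a1, a2, a3⟩
            exact ⟨a2.symm, a1, fun i hi => by rw [← h2 i hi]; exact a3 i hi⟩
          · rintro ⟨a1, a2, a3⟩
            exact ⟨a2, a1.symm, fun i hi => by rw [h2 i hi]; exact a3 i hi⟩
        rw [e2, Finset.card_erase_of_mem hq]
      rw [Finset.sum_congr rfl key, Finset.sum_const, smul_eq_mul, Finset.card_insert_of_notMem hj,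
        ← hF', ← mul_assoc]
      congr 1
      · rcases Nat.eq_zero_or_pos F'.card with h0 | h0
        · rw [h0]
          simp
        · obtain ⟨m, hm⟩ : ∃ m, F'.card = m + 1 := ⟨F'.card - 1, by omega⟩
          rw [hm, Nat.succ_descFactorial_succ, Nat.add_sub_cancel]
      · congr 1
        omega
    · intro ω hω
      simp only [Finset.coe_filter, Finset.mem_univ, true_and, Set.mem_ofPred_eq,
        Finset.forall_mem_insert] at hω
      rw [hF']
      simp only [Finset.coe_filter, Set.mem_ofPred_eq]
      refine ⟨hω.2.1, fun i hi h => ?_⟩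
      rw [← hω.1 i hi] at h
      have := ω.injective h
      rw [this] at hi
      exact hjK hi

end CntAux

theorem cnt : S_CNT := by
  intro P Q _ _ ω₀ K J F hd
  rw [← CntAux.main F J K ω₀ hd, Nat.card_eq_fintype_card, Fintype.card_subtype]

end Pool.Agent.N956.BG
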