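import Mathlib

/-!
# Budget-constrained random graph process: minimum degree k at its hitting time (MP_59e60d_pr)
-/

set_option autoImplicit false

namespace Pool.Agent.N956.BG

open Finset Filter Topology
open scoped Classical

noncomputable section

/-- The edges of the complete graph on `Fin n`. -/
abbrev E (n : ℕ) : Type := {e : Sym2 (Fin n) // ¬ e.IsDiag}

/-- The orderings of the edges of the complete graph: `ω i` is the edge number `i`
(`i = 0, 1, …, (n choose 2) - 1`). -/
abbrev Ord (n : ℕ) : Type := Fin (n.choose 2) ≃ E n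

/-- Probability of an event for a uniformly random ordering. -/
def Pr (n : ℕ) (A : Ord n → Prop) : ℝ :=
  (Nat.card {ω : Ord n // A ω} : ℝ) / (Nat.card (Ord n) : ℝ)

/-- The degree of the vertex `v` in the graph with edge set `F`. -/
def deg {n : ℕ} (F : Finset (E n)) (v : Fin n) : ℕ :=
  (F.filter (fun e : E n => v ∈ (e : Sym2 (Fin n)))).card

/-- The graph formed by the first `t` edges. -/
def G {n : ℕ} (ω : Ord n) (t : ℕ) : Finset (E n) :=
  univ.filter (fun e : E n => ((ω.symm e : Fin (n.choose 2)) : ℕ) < t)

/-- The graph formed by the edges with (zero-based) numbers in `[s, t)`. -/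
def Gb {n : ℕ} (ω : Ord n) (s t : ℕ) : Finset (E n) :=
  univ.filter (fun e : E n => s ≤ ((ω.symm e : Fin (n.choose 2)) : ℕ) ∧
    ((ω.symm e : Fin (n.choose 2)) : ℕ) < t)

/-- The hitting time of minimum degree `k`. -/
def tau {n : ℕ} (k : ℕ) (ω : Ord n) : ℕ := sInf {t : ℕ | ∀ v, k ≤ deg (G ω t) v}

/-- A (deterministic) strategy: given the current edge and the graph bought so far, buy or not.
It sees neither the step number nor the edges which were not bought. -/
abbrev Strategy (n : ℕ) : Type := E n → Finset (E n) → Prop

/-- The graph bought by the strategy `S` during the first `s` steps. -/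
def B {n : ℕ} (S : Strategy n) (ω : Ord n) : ℕ → Finset (E n)
  | 0 => ∅
  | s + 1 =>
    if h : s < n.choose 2 then
      (if S (ω ⟨s, h⟩) (B S ω s) then insert (ω ⟨s, h⟩) (B S ω s) else B S ω s)
    else B S ω s

/-- The `k`-nearest neighbour graph: the edge `e` is kept if it is among the first `k` edges at one
of its endpoints. -/
def nearest {n : ℕ} (k : ℕ) (ω : Ord n) : Finset (E n) :=
  univ.filter (fun e : E n => ∃ v ∈ (e : Sym2 (Fin n)),
    (univ.filter (fun e' : E n => v ∈ (e' : Sym2 (Fin n)) ∧ ω.symm e' < ω.symm e)).card < k)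

/-- `o` is the constant `o_k`: the `k`-nearest neighbour graph has `o n + o(n)` edges with
probability tending to one. -/
def IsO (k : ℕ) (o : ℝ) : Prop :=
  ∀ δ : ℝ, 0 < δ → Tendsto (fun n : ℕ =>
    Pr n (fun ω => |((nearest k ω).card : ℝ) - o * n| ≤ δ * n)) atTop (𝓝 1)

/-- The strategy: as long as fewer than `th` edges have been bought buy exactly the edges both ends
of which have degree less than `k`; later buy the edges one end of which has degree less than
`k`. -/
def St {n : ℕ} (k th : ℕ) : Strategy n := fun e F =>
  (F.card < th ∧ ∀ v ∈ (e : Sym2 (Fin n)), deg F v < k) ∨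
  (th ≤ F.card ∧ ∃ v ∈ (e : Sym2 (Fin n)), deg F v < k)

end

end Pool.Agent.N956.BG
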