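import Pool.Agent.N956.BG.Stm

/-!
# Project BG, leaf DENS (helper454): every large set of vertices contains more than `k n` of the
first `M n` edges
-/

set_option autoImplicit false

namespace Pool.Agent.N956.BG

open Finset Filter Topology
open scoped Classical

noncomputable section

namespace DensAux

lemma Pr_eq (n : ℕ) (A : Ord n → Prop) :
    Pr n A = ((univ.filter A).card : ℝ) / (Fintype.card (Ord n) : ℝ) := by
  unfold Pr
  rw [Nat.card_eq_fintype_card, Nat.card_eq_fintype_card, Fintype.card_subtype]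

lemma Pr_union (n : ℕ) {ι : Type} [Fintype ι] (A : ι → Ord n → Prop) :
    Pr n (fun ω => ∃ i, A i ω) ≤ ∑ i, Pr n (A i) := by
  simp only [Pr_eq]
  rw [← Finset.sum_div]
  apply div_le_div_of_nonneg_right _ (Nat.cast_nonneg _)
  refine le_trans (Nat.cast_le.mpr (Finset.card_le_card
    (t := univ.biUnion fun i => univ.filter (A i)) ?_)) ?_
  · intro ω hω
    obtain ⟨i, hi⟩ := (@Finset.mem_filter _ _ (fun a => Classical.propDecidable _) _ _).mp hω |>.2
    rw [mem_biUnion]
    exact ⟨i, mem_univ _, by rw [mem_filter]; exact ⟨mem_univ _, hi⟩⟩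
  · rw [← Nat.cast_sum]
    exact_mod_cast Finset.card_biUnion_le

lemma Pr_mono (n : ℕ) {A A' : Ord n → Prop} (h : ∀ ω, A ω → A' ω) : Pr n A ≤ Pr n A' := by
  simp only [Pr_eq]
  apply div_le_div_of_nonneg_right _ (Nat.cast_nonneg _)
  exact_mod_cast Finset.card_le_card fun ω hω => by
    rw [mem_filter] at hω ⊢; exact ⟨hω.1, h ω hω.2⟩

lemma Pr_false (n : ℕ) {A : Ord n → Prop} (h : ∀ ω, ¬ A ω) : Pr n A = 0 := by
  rw [Pr_eq, Finset.filter_false_of_mem fun ω _ => h ω]
  simp

/-- the edges inside of `U` -/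
def FU {n : ℕ} (U : Finset (Fin n)) : Finset (E n) :=
  univ.filter fun e : E n => ∀ v ∈ (e : Sym2 (Fin n)), v ∈ U

lemma card_FU {n : ℕ} (U : Finset (Fin n)) : U.card.choose 2 ≤ (FU U).card := by
  rw [← Sym2.card_image_offDiag U]
  refine le_trans (Finset.card_le_card ?_)
    (Finset.card_image_le (s := FU U) (f := fun e : E n => (e : Sym2 (Fin n))))
  intro e he
  rw [mem_image] at he ⊢
  obtain ⟨⟨a, b⟩, hab, rfl⟩ := he
  rw [mem_offDiag] at hab
  refine ⟨⟨s(a, b), by simpa using hab.2.2⟩, ?_, rfl⟩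
  rw [FU, mem_filter]
  refine ⟨mem_univ _, ?_⟩
  intro v hv
  rcases Sym2.mem_iff.mp hv with rfl | rfl
  · exact hab.1
  · exact hab.2.1

/-- the first `t` positions -/
def JJ (n t : ℕ) : Finset (Fin (n.choose 2)) := univ.filter fun i => (i : ℕ) < t

lemma card_JJ {n t : ℕ} (h : t ≤ n.choose 2) : (JJ n t).card = t := by
  unfold JJ
  rw [Fin.card_filter_val_lt]
  exact min_eq_right h

lemma card_G {n : ℕ} (ω : Ord n) (t : ℕ) (U : Finset (Fin n)) :
    ((G ω t).filter (fun e : E n => ∀ v ∈ (e : Sym2 (Fin n)), v ∈ U)).card =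
      ((JJ n t).filter fun i => ω i ∈ FU U).card := by
  symm
  refine Finset.card_bij (fun i _ => ω i) ?_ ?_ ?_
  · intro i hi
    simp only [JJ, FU, G, mem_filter, mem_univ, true_and, Equiv.symm_apply_apply] at hi ⊢
    exact hi
  · intro i _ j _ h
    exact ω.injective h
  · intro e he
    refine ⟨ω.symm e, ?_, Equiv.apply_symm_apply _ _⟩
    simp only [JJ, FU, G, mem_filter, mem_univ, true_and, Equiv.apply_symm_apply] at he ⊢
    exact he

lemma choose_bound (m r : ℕ) {x : ℝ} (hx : 0 < x) :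
    (m.choose r : ℝ) * x ^ r ≤ (1 + x) ^ m := by
  rcases Nat.lt_or_ge m r with h | h
  · rw [Nat.choose_eq_zero_of_lt h]
    simp only [Nat.cast_zero, zero_mul]
    positivity
  · rw [add_comm 1 x, add_pow]
    have := Finset.single_le_sum (f := fun j => x ^ j * 1 ^ (m - j) * (m.choose j : ℝ))
      (s := range (m + 1)) (fun j _ => by positivity) (mem_range.mpr (Nat.lt_succ_of_le h))
    refine le_trans (le_of_eq ?_) this
    simp only [one_pow, mul_one]
    ring

end DensAux

open DensAux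

theorem dens (hH : S_HYP) : S_DENS := by
  intro k α hα
  rcases lt_or_ge 1 α with h1 | h1
  · refine ⟨0, ?_⟩
    filter_upwards [eventually_ge_atTop 1] with n hn
    rw [Pr_false]
    · positivity
    · rintro ω ⟨U, hU, _⟩
      have h2 : (U.card : ℝ) ≤ n := by
        exact_mod_cast (Finset.card_le_univ U).trans (by simp)
      have h3 : (1 : ℝ) ≤ n := by exact_mod_cast hn
      nlinarith
  set β : ℝ := α ^ 2 / 4 with hβ
  have hβ0 : 0 < β := by positivity
  have hβ1 : β ≤ 1 / 4 := by rw [hβ]; nlinarith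
  set x : ℝ := β / 2 with hx
  have hx0 : 0 < x := by positivity
  set C : ℝ := (x * (1 - β)) with hC
  have hC0 : 0 < C := mul_pos hx0 (by linarith)
  obtain ⟨M, hMk, hM⟩ : ∃ M : ℕ, k ≤ M ∧ (1 - β / 2) ^ M ≤ C ^ k / 4 := by
    have ht : Tendsto (fun M : ℕ => (1 - β / 2) ^ M) atTop (𝓝 0) :=
      tendsto_pow_atTop_nhds_zero_of_lt_one (by linarith) (by linarith)
    have h2 := (ht.eventually_le_const (show (0 : ℝ) < C ^ k / 4 by positivity)).and
      (eventually_ge_atTop k)
    obtain ⟨M, hM1, hM2⟩ := h2.exists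
    exact ⟨M, hM2, hM1⟩
  refine ⟨M, ?_⟩
  filter_upwards [eventually_ge_atTop (max 2 (2 * M + 1)), eventually_ge_atTop ⌈4 / α⌉₊]
    with n hn1 hn2
  have hn3 : 2 ≤ n := le_trans (le_max_left _ _) hn1
  have hn4 : 2 * M + 1 ≤ n := le_trans (le_max_right _ _) hn1
  have hn5 : 4 ≤ α * n := by
    have := (Nat.ceil_le.mp hn2)
    rw [div_le_iff₀ hα] at this
    linarith
  have hNr : ((n.choose 2 : ℕ) : ℝ) = n * (n - 1) / 2 := Nat.cast_choose_two ℝ n
  have hMn : M * n ≤ n.choose 2 := by
    rw [Nat.choose_two_right, Nat.le_div_iff_mul_le (by norm_num)]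
    have : 2 * M ≤ n - 1 := by omega
    calc M * n * 2 = n * (2 * M) := by ring
      _ ≤ n * (n - 1) := Nat.mul_le_mul_left _ this
  have hnr : (2 : ℝ) ≤ n := by exact_mod_cast hn3
  have hN0 : (0 : ℝ) < (n.choose 2 : ℕ) := by rw [hNr]; nlinarith
  have hkn : k * n ≤ M * n := Nat.mul_le_mul_right _ hMk
  have key : ∀ U : Finset (Fin n), Pr n (fun ω => α * n ≤ U.card ∧
      ((G ω (M * n)).filter (fun e : E n => ∀ v ∈ (e : Sym2 (Fin n)), v ∈ U)).card ≤ k * n) ≤
      (1 / 4 : ℝ) ^ n := by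
    intro U
    by_cases hU : α * n ≤ U.card
    swap
    · rw [Pr_false n (fun ω h => hU h.1)]
      positivity
    have h2 : Pr n (fun ω => α * n ≤ U.card ∧
        ((G ω (M * n)).filter (fun e : E n => ∀ v ∈ (e : Sym2 (Fin n)), v ∈ U)).card ≤ k * n) ≤
        Pr n (fun ω => ((JJ n (M * n)).filter (fun i => ω i ∈ FU U)).card ≤ k * n) := by
      apply Pr_mono
      rintro ω ⟨_, h⟩
      rw [← card_G]
      convert h
    have h3 := hH n (JJ n (M * n)) (FU U) (k * n) hn3 (by rw [card_JJ hMn]; exact hkn)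
    rw [card_JJ hMn] at h3
    refine h2.trans (h3.trans ?_)
    have hF : β ≤ ((FU U).card : ℝ) / (n.choose 2 : ℕ) := by
      rw [le_div_iff₀ hN0]
      have h4 : ((U.card.choose 2 : ℕ) : ℝ) ≤ (FU U).card := by exact_mod_cast card_FU U
      refine le_trans ?_ h4
      rw [Nat.cast_choose_two ℝ U.card, hNr, hβ]
      have h5 : α * n * (α * n - 1) ≤ (U.card : ℝ) * (U.card - 1) := by nlinarith
      have h6 : α ^ 2 / 4 * (n * (n - 1)) ≤ α * n * (α * n - 1) := by
        have : 0 ≤ α * n * (α * n - 1 - α / 4 * (n - 1)) := by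
          apply mul_nonneg (by positivity)
          nlinarith
        nlinarith
      linarith
    have hF1 : ((FU U).card : ℝ) / (n.choose 2 : ℕ) ≤ 1 := by
      rw [div_le_one hN0]
      have : (FU U).card ≤ Fintype.card (E n) := Finset.card_le_univ _
      have h7 : Fintype.card (E n) = n.choose 2 := by
        rw [Sym2.card_subtype_not_diag, Fintype.card_fin]
      rw [h7] at this
      exact_mod_cast this
    have h8 : (1 - ((FU U).card : ℝ) / (n.choose 2 : ℕ)) ^ (M * n - k * n) ≤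
        (1 - β) ^ (M * n - k * n) :=
      pow_le_pow_left₀ (by linarith) (by linarith) _
    have h9 := choose_bound (M * n) (k * n) hx0
    have h10 : ((M * n).choose (k * n) : ℝ) * (1 - β) ^ (M * n - k * n) * C ^ (k * n) ≤
        ((1 - β / 2) ^ M) ^ n := by
      have e1 : ((M * n).choose (k * n) : ℝ) * (1 - β) ^ (M * n - k * n) * C ^ (k * n) =
          (((M * n).choose (k * n) : ℝ) * x ^ (k * n)) * (1 - β) ^ (M * n) := by
        rw [hC, mul_pow]
        have : (1 - β) ^ (M * n) = (1 - β) ^ (M * n - k * n) * (1 - β) ^ (k * n) := by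
          rw [← pow_add, Nat.sub_add_cancel hkn]
        rw [this]; ring
      rw [e1]
      calc (((M * n).choose (k * n) : ℝ) * x ^ (k * n)) * (1 - β) ^ (M * n)
          ≤ (1 + x) ^ (M * n) * (1 - β) ^ (M * n) :=
            mul_le_mul_of_nonneg_right h9 (pow_nonneg (by linarith) _)
        _ = ((1 + x) * (1 - β)) ^ (M * n) := (mul_pow _ _ _).symm
        _ ≤ (1 - β / 2) ^ (M * n) := by
            apply pow_le_pow_left₀ (mul_nonneg (by linarith) (by linarith))
            rw [hx]; nlinarith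
        _ = ((1 - β / 2) ^ M) ^ n := pow_mul _ _ _
    have h11 : ((1 - β / 2) ^ M) ^ n ≤ (C ^ k / 4) ^ n :=
      pow_le_pow_left₀ (pow_nonneg (by linarith) _) hM n
    have h12 : (C ^ k / 4) ^ n = (1 / 4 : ℝ) ^ n * C ^ (k * n) := by
      rw [div_eq_mul_one_div, mul_pow, ← pow_mul, mul_comm]
    have h13 : (0 : ℝ) < C ^ (k * n) := pow_pos hC0 _
    have h14 : ((M * n).choose (k * n) : ℝ) * (1 - β) ^ (M * n - k * n) ≤ (1 / 4 : ℝ) ^ n := by
      have := h10.trans (h11.trans_eq h12)
      exact le_of_mul_le_mul_right this h13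
    exact (mul_le_mul_of_nonneg_left h8 (Nat.cast_nonneg _)).trans h14
  refine (Pr_union n _).trans ((Finset.sum_le_sum fun U _ => key U).trans ?_)
  rw [Finset.sum_const, nsmul_eq_mul, Finset.card_univ, Fintype.card_finset, Fintype.card_fin]
  push_cast
  rw [← mul_pow]
  norm_num

end

end Pool.Agent.N956.BG
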