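import Pool.Agent.N956.BG.Suc

/-!
# Assembly
-/

set_option autoImplicit false

namespace Pool.Agent.N956.BG

open Finset Filter Topology
open scoped Classical

noncomputable section

theorem card_E (n : ℕ) : Fintype.card (E n) = n.choose 2 := by
  have h := Sym2.card_subtype_not_diag (α := Fin n)
  rw [Fintype.card_fin] at h
  rw [← h]

theorem nonempty_Ord (n : ℕ) : Nonempty (Ord n) := by
  have h : Fintype.card (Fin (n.choose 2)) = Fintype.card (E n) := by
    rw [card_E, Fintype.card_fin]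
  exact ⟨Fintype.equivOfCardEq h⟩

theorem card_Ord_pos (n : ℕ) : (0 : ℝ) < (Nat.card (Ord n) : ℝ) := by
  have := nonempty_Ord n
  exact_mod_cast Nat.card_pos

theorem Pr_eq (n : ℕ) (A : Ord n → Prop) :
    Pr n A = (Set.ncard {ω : Ord n | A ω} : ℝ) / (Nat.card (Ord n) : ℝ) := rfl

theorem Pr_mono (n : ℕ) {A A' : Ord n → Prop} (h : ∀ ω, A ω → A' ω) : Pr n A ≤ Pr n A' := by
  rw [Pr_eq, Pr_eq]
  apply div_le_div_of_nonneg_right _ (card_Ord_pos n).le
  exact_mod_cast Set.ncard_le_ncard (fun ω hω => h ω hω) (Set.toFinite _)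

theorem Pr_or (n : ℕ) (A A' : Ord n → Prop) : Pr n (fun ω => A ω ∨ A' ω) ≤ Pr n A + Pr n A' := by
  rw [Pr_eq, Pr_eq, Pr_eq, ← add_div]
  apply div_le_div_of_nonneg_right _ (card_Ord_pos n).le
  have h : {ω : Ord n | A ω ∨ A' ω} = {ω : Ord n | A ω} ∪ {ω : Ord n | A' ω} := rfl
  rw [h]
  exact_mod_cast Set.ncard_union_le _ _

theorem Pr_true (n : ℕ) : Pr n (fun _ => True) = 1 := by
  rw [Pr_eq]
  have h : Set.ncard {ω : Ord n | True} = Nat.card (Ord n) := by
    rw [Set.ofPred_true, Set.ncard_univ]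
  rw [h]
  exact div_self (card_Ord_pos n).ne'

theorem never_card {n : ℕ} (ω : Ord n) (s : ℕ) :
    (B (fun _ _ => False : Strategy n) ω s) = ∅ := by
  induction s with
  | zero => rfl
  | succ s ih =>
    unfold B
    split_ifs with h h'
    · exact absurd h' (by simp)
    · exact ih
    · exact ih

/-- The number of edges bought in the first phase. -/
def th (k : ℕ) (η : ℝ) (n : ℕ) : ℕ := ⌈((k : ℝ) / 2 - η) * n⌉₊

/-- The budget. -/
def bdg (k : ℕ) (η : ℝ) (n : ℕ) : ℕ := if 2 * th k η n ≤ k * n then k * n - th k η n else 0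

/-- The strategy. -/
def stg (k : ℕ) (η : ℝ) (n : ℕ) : Strategy n :=
  if 2 * th k η n ≤ k * n then St k (th k η n) else fun _ _ => False

theorem bdg_le (k : ℕ) (η : ℝ) (hη : 0 < η) (n : ℕ) :
    (bdg k η n : ℝ) ≤ ((k : ℝ) / 2 + η) * n := by
  unfold bdg
  split_ifs with h
  · have h1 : th k η n ≤ k * n := by omega
    rw [Nat.cast_sub h1]
    have h2 : ((k : ℝ) / 2 - η) * n ≤ (th k η n : ℝ) := Nat.le_ceil _
    push_cast
    linarith
  · simp only [Nat.cast_zero]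
    positivity

theorem stg_budget (hB : S_BUD) (k : ℕ) (η : ℝ) (n : ℕ) (ω : Ord n) (s : ℕ) :
    (B (stg k η n) ω s).card ≤ bdg k η n := by
  unfold stg bdg
  split_ifs with h
  · exact hB n k _ h ω s
  · rw [never_card]; simp

theorem main_pos (hD : S_DENS) (hI : S_ISO) (hM : S_MIN) (h1 : S_PH1) (h2 : S_PH2)
    (k : ℕ) (hk : 1 ≤ k) (η : ℝ) (hη : 0 < η) (hηk : η < (k : ℝ) / 2) :
    ∃ c : ℝ, 0 < c ∧ ∀ᶠ n : ℕ in atTop,
      c ≤ Pr n (fun ω => ∀ v, k ≤ deg (B (stg k η n) ω (tau k ω)) v) := by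
  have hk0 : (0 : ℝ) < k := by exact_mod_cast hk
  obtain ⟨M, hM1⟩ := hD k (η / k) (by positivity)
  obtain ⟨c0, hc0, hI1⟩ := hI M
  refine ⟨c0 / 4, by positivity, ?_⟩
  have e1 : ∀ᶠ n : ℕ in atTop,
      Pr n (fun ω => ∃ v, deg (Gb ω (M * n) (n.choose 2 / 2)) v < k) ≤ 1 / 2 :=
    (hM k M).eventually (ge_mem_nhds (by norm_num))
  have e2 : ∀ᶠ n : ℕ in atTop, (1 / 2 : ℝ) ^ n ≤ c0 / 4 :=
    (tendsto_pow_atTop_nhds_zero_of_lt_one (by norm_num) (by norm_num)).eventually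
      (ge_mem_nhds (by positivity))
  have e3 : ∀ᶠ n : ℕ in atTop, 2 / η ≤ (n : ℝ) :=
    tendsto_natCast_atTop_atTop.eventually (eventually_ge_atTop _)
  have e4 : ∀ᶠ n : ℕ in atTop, 4 * M + 2 ≤ n := eventually_ge_atTop _
  filter_upwards [hM1, hI1, e1, e2, e3, e4] with n hd hi h3 h4 h5 h6
  have hn0 : 0 < n := by omega
  have hηn : 2 ≤ η * n := by
    rw [div_le_iff₀ hη] at h5
    linarith
  -- the threshold
  have hceil : (th k η n : ℝ) < ((k : ℝ) / 2 - η) * n + 1 := by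
    unfold th
    apply Nat.ceil_lt_add_one
    apply mul_nonneg (by linarith) (by positivity)
  have hth : 2 * th k η n ≤ k * n := by
    have : (2 * th k η n : ℝ) ≤ k * n := by nlinarith
    exact_mod_cast this
  have hst : stg k η n = St k (th k η n) := by
    unfold stg; rw [if_pos hth]
  rw [hst]
  -- positions
  have hpos : M * n ≤ n.choose 2 / 2 := by
    have h7 : n.choose 2 = n * (n - 1) / 2 := Nat.choose_two_right n
    rw [h7, Nat.div_div_eq_div_mul, Nat.le_div_iff_mul_le (by norm_num)]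
    have h8 : M * 4 ≤ n - 1 := by omega
    calc M * n * (2 * 2) = n * (M * 4) := by ring
      _ ≤ n * (n - 1) := Nat.mul_le_mul_left _ h8
  set A : Ord n → Prop := fun ω => ∀ v, k ≤ deg (Gb ω (M * n) (n.choose 2 / 2)) v with hA
  let v0 : Fin n := ⟨0, hn0⟩
  let f : Ord n → Fin n := fin v0 k (M * n) (n.choose 2 / 2)
  have hAf : ∀ ω ω' : Ord n, (∀ i : Fin (n.choose 2), M * n ≤ (i : ℕ) →
      (i : ℕ) < n.choose 2 / 2 → ω i = ω' i) → (A ω ↔ A ω') ∧ f ω = f ω' := by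
    intro ω ω' hh
    refine ⟨?_, fin_congr v0 k _ _ ω ω' hh⟩
    simp only [hA]
    rw [Gb_congr _ _ ω ω' hh _ le_rfl]
  have h10 := hi A f hAf
  have h11 : 1 / 2 ≤ Pr n A := by
    have h12 : Pr n (fun _ => True) ≤
        Pr n A + Pr n (fun ω => ∃ v, deg (Gb ω (M * n) (n.choose 2 / 2)) v < k) := by
      refine le_trans (Pr_mono n (fun ω _ => ?_)) (Pr_or n A _)
      by_cases h : A ω
      · exact Or.inl h
      · right
        simp only [hA] at h
        push Not at h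
        exact h
    rw [Pr_true] at h12
    linarith
  -- bad event
  set D : Ord n → Prop := fun ω => ∃ U : Finset (Fin n), η / k * n ≤ U.card ∧
    ((G ω (M * n)).filter (fun e : E n => ∀ v ∈ (e : Sym2 (Fin n)), v ∈ U)).card ≤ k * n with hDd
  have h13 : Pr n (fun ω => A ω ∧ deg (G ω (M * n)) (f ω) = 0) ≤
      Pr n (fun ω => ∀ v, k ≤ deg (B (St k (th k η n)) ω (tau k ω)) v) + Pr n D := by
    refine le_trans (Pr_mono n (fun ω hω => ?_)) (Pr_or n _ D)
    by_cases hDω : D ω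
    · exact Or.inr hDω
    · left
      have h14 : th k η n ≤ (B (St k (th k η n)) ω (M * n)).card := by
        by_contra hc
        push Not at hc
        obtain ⟨U, hU1, hU2⟩ := h1 n k (th k η n) (M * n) ω hc
        apply hDω
        refine ⟨U, ?_, hU2⟩
        have h15 : (k * n : ℝ) ≤ k * U.card + 2 * th k η n := by exact_mod_cast hU1
        have h16 : η * n ≤ k * (U.card : ℝ) := by nlinarith
        rw [div_mul_eq_mul_div, div_le_iff₀ hk0]
        linarith
      exact suc h2 v0 k _ _ _ ω hk hpos h14 hω.1 hω.2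
  have h17 : c0 * (1 / 2) ≤ c0 * Pr n A := by
    apply mul_le_mul_of_nonneg_left h11 hc0.le
  linarith

theorem main (hD : S_DENS) (hI : S_ISO) (hM : S_MIN) (hB : S_BUD) (h1 : S_PH1) (h2 : S_PH2)
    (k : ℕ) (hk : 1 ≤ k) (η : ℝ) (hη : 0 < η) :
    ∃ (b : ℕ → ℕ) (S : ∀ n : ℕ, Strategy n), (∀ n, (b n : ℝ) ≤ ((k : ℝ) / 2 + η) * n) ∧
      (∀ n (ω : Ord n) (s : ℕ), (B (S n) ω s).card ≤ b n) ∧
      ∃ c : ℝ, 0 < c ∧ ∀ᶠ n : ℕ in atTop,
        c ≤ Pr n (fun ω => ∀ v, k ≤ deg (B (S n) ω (tau k ω)) v) := by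
  have hk0 : (0 : ℝ) < k := by exact_mod_cast hk
  set η' : ℝ := min η ((k : ℝ) / 4) with hη'
  have h3 : 0 < η' := lt_min hη (by positivity)
  have h4 : η' < (k : ℝ) / 2 := lt_of_le_of_lt (min_le_right _ _) (by linarith)
  refine ⟨bdg k η', stg k η', fun n => ?_, stg_budget hB k η', main_pos hD hI hM h1 h2 k hk η' h3 h4⟩
  refine (bdg_le k η' h3 n).trans ?_
  apply mul_le_mul_of_nonneg_right _ (by positivity)
  have := min_le_left η ((k : ℝ) / 4)
  linarith

end

end Pool.Agent.N956.BG
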