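import Pool.Agent.N956.BG.Stm

/-!
# Project BG (MP_59e60d_pr): the hypergeometric tail bound
-/

set_option autoImplicit false

namespace Pool.Agent.N956.BG

open Finset Filter Topology
open scoped Classical

namespace HypAux

theorem nat1 {m N : ℕ} (h : m ≤ N) (j : ℕ) : (m - j) * N ≤ m * (N - j) := by
  rw [Nat.sub_mul, Nat.mul_sub]
  apply Nat.sub_le_sub_left
  rw [mul_comm j N]
  exact Nat.mul_le_mul_right j h

theorem nat2 {m N : ℕ} (h : m ≤ N) : ∀ j : ℕ,
    m.descFactorial j * N ^ j ≤ m ^ j * N.descFactorial j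
  | 0 => by simp
  | j + 1 => by
    rw [Nat.descFactorial_succ, Nat.descFactorial_succ, pow_succ, pow_succ]
    calc (m - j) * m.descFactorial j * (N ^ j * N) = ((m - j) * N) * (m.descFactorial j * N ^ j) := by
          ring
      _ ≤ (m * (N - j)) * (m ^ j * N.descFactorial j) := Nat.mul_le_mul (nat1 h j) (nat2 h j)
      _ = m ^ j * m * ((N - j) * N.descFactorial j) := by ring

theorem real1 {m N j : ℕ} (h : m ≤ N) (hN : 0 < N) (hj : j ≤ N) :
    ((m.descFactorial j * (N - j).factorial : ℕ) : ℝ) / (N.factorial : ℝ) ≤ ((m : ℝ) / N) ^ j := by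
  have h1 : (0 : ℝ) < N := by exact_mod_cast hN
  have h2 : (0 : ℝ) < N.factorial := by exact_mod_cast N.factorial_pos
  rw [div_pow, div_le_div_iff₀ h2 (pow_pos h1 j)]
  have h3 : m.descFactorial j * (N - j).factorial * N ^ j ≤ m ^ j * N.factorial := by
    rw [← Nat.factorial_mul_descFactorial hj]
    calc m.descFactorial j * (N - j).factorial * N ^ j =
          (N - j).factorial * (m.descFactorial j * N ^ j) := by ring
      _ ≤ (N - j).factorial * (m ^ j * N.descFactorial j) := Nat.mul_le_mul_left _ (nat2 h j)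
      _ = m ^ j * ((N - j).factorial * N.descFactorial j) := by ring
  exact_mod_cast h3

theorem card_E (n : ℕ) : Fintype.card (E n) = n.choose 2 := by
  have h := Sym2.card_subtype_not_diag (α := Fin n)
  rw [Fintype.card_fin] at h
  rw [← h]

theorem card_Ord (n : ℕ) : Nat.card (Ord n) = (n.choose 2).factorial := by
  rw [Nat.card_eq_fintype_card]
  have e : Fin (n.choose 2) ≃ E n := Fintype.equivOfCardEq (by rw [Fintype.card_fin, card_E])
  rw [Fintype.card_equiv e, Fintype.card_fin]

end HypAux

/-- HYP: hypergeometric tail -/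
theorem hyp (hC : S_CNT) : S_HYP := by
  intro n J F r hn hr
  have hN : 0 < n.choose 2 := Nat.choose_pos hn
  have e : Fin (n.choose 2) ≃ E n :=
    Fintype.equivOfCardEq (by rw [Fintype.card_fin, HypAux.card_E])
  have hJN : J.card ≤ n.choose 2 := by
    have := J.card_le_univ
    rwa [Fintype.card_fin] at this
  have hF : F.card ≤ n.choose 2 := by
    have := F.card_le_univ
    rwa [HypAux.card_E] at this
  have hFc : (Fᶜ).card = n.choose 2 - F.card := by
    rw [card_compl, HypAux.card_E]
  have hcnt : ∀ J' : Finset (Fin (n.choose 2)), J' ∈ J.powersetCard (J.card - r) →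
      ((univ : Finset (Ord n)).filter (fun ω => ∀ j ∈ J', ω j ∈ Fᶜ)).card =
        (n.choose 2 - F.card).descFactorial (J.card - r) *
          (n.choose 2 - (J.card - r)).factorial := by
    intro J' hJ'
    have h1 := hC (Fin (n.choose 2)) (E n) e ∅ J' Fᶜ (disjoint_empty_left _)
    have h2 : ∀ d : DecidablePred
        (fun q => ∀ i ∈ (∅ : Finset (Fin (n.choose 2))), e i ≠ q),
        @Finset.filter _ (fun q => ∀ i ∈ (∅ : Finset (Fin (n.choose 2))), e i ≠ q) d Fᶜ = Fᶜ := by
      intro d
      apply filter_true_of_mem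
      intro q _ i hi
      exact absurd hi (notMem_empty i)
    rw [h2 _, hFc, (mem_powersetCard.1 hJ').2, card_empty, Fintype.card_fin, Nat.sub_zero] at h1
    rw [← h1, Nat.card_eq_fintype_card, Fintype.card_subtype]
    congr 1
    ext ω
    simp only [mem_filter, mem_univ, true_and]
    constructor
    · intro h
      exact ⟨fun i hi => absurd hi (notMem_empty i), h⟩
    · intro h
      exact h.2
  have hun : Nat.card {ω : Ord n // (J.filter (fun i => ω i ∈ F)).card ≤ r} ≤
      J.card.choose r * ((n.choose 2 - F.card).descFactorial (J.card - r) *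
          (n.choose 2 - (J.card - r)).factorial) := by
    rw [Nat.card_eq_fintype_card, Fintype.card_subtype]
    have h1 : (univ : Finset (Ord n)).filter (fun ω => (J.filter (fun i => ω i ∈ F)).card ≤ r) ⊆
        (J.powersetCard (J.card - r)).biUnion fun J' =>
          (univ : Finset (Ord n)).filter (fun ω => ∀ j ∈ J', ω j ∈ Fᶜ) := by
      intro ω hω
      rw [mem_filter] at hω
      have h2 : J.card - r ≤ (J.filter (fun i => ¬ ω i ∈ F)).card := by
        have h3 := card_filter_add_card_filter_not (s := J) (fun i => ω i ∈ F)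
        have h4 := hω.2
        omega
      obtain ⟨J', hJ', hc⟩ := exists_subset_card_eq h2
      rw [mem_biUnion]
      refine ⟨J', mem_powersetCard.2 ⟨hJ'.trans (filter_subset _ _), hc⟩, ?_⟩
      rw [mem_filter]
      refine ⟨mem_univ _, fun j hj => ?_⟩
      rw [mem_compl]
      exact (mem_filter.1 (hJ' hj)).2
    refine (card_le_card h1).trans (card_biUnion_le.trans ?_)
    rw [sum_congr rfl hcnt, sum_const, card_powersetCard, Nat.choose_symm hr, smul_eq_mul]
  unfold Pr
  rw [HypAux.card_Ord]
  have hm : ((n.choose 2 - F.card : ℕ) : ℝ) / (n.choose 2 : ℝ) =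
      1 - (F.card : ℝ) / (n.choose 2 : ℝ) := by
    have h1 : (n.choose 2 : ℝ) ≠ 0 := by exact_mod_cast hN.ne'
    rw [Nat.cast_sub hF]
    field_simp
  have h3 := HypAux.real1 (m := n.choose 2 - F.card) (N := n.choose 2) (j := J.card - r)
    (Nat.sub_le _ _) hN (by omega)
  rw [hm] at h3
  have hpos : (0 : ℝ) ≤ ((n.choose 2).factorial : ℝ) := by positivity
  calc (Nat.card {ω : Ord n // (J.filter (fun i => ω i ∈ F)).card ≤ r} : ℝ) /
        ((n.choose 2).factorial : ℝ)
      ≤ ((J.card.choose r * ((n.choose 2 - F.card).descFactorial (J.card - r) *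
          (n.choose 2 - (J.card - r)).factorial) : ℕ) : ℝ) / ((n.choose 2).factorial : ℝ) :=
        div_le_div_of_nonneg_right (by exact_mod_cast hun) hpos
    _ = (J.card.choose r : ℝ) * ((((n.choose 2 - F.card).descFactorial (J.card - r) *
          (n.choose 2 - (J.card - r)).factorial : ℕ) : ℝ) / ((n.choose 2).factorial : ℝ)) := by
        rw [Nat.cast_mul, mul_div_assoc]
    _ ≤ (J.card.choose r : ℝ) * (1 - (F.card : ℝ) / (n.choose 2 : ℝ)) ^ (J.card - r) :=
        mul_le_mul_of_nonneg_left h3 (Nat.cast_nonneg _)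

end Pool.Agent.N956.BG
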