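import Pool.Agent.N956.BG.Stm

/-!
# Project BG: the leaf ISO
-/

set_option autoImplicit false

namespace Pool.Agent.N956.BG

open Finset Filter Topology
open scoped Classical

noncomputable section

namespace IsoAux

theorem card_at (n : ℕ) (v : Fin n) :
    (univ.filter (fun e : E n => v ∈ (e : Sym2 (Fin n)))).card ≤ n := by
  have h1 : (univ.filter (fun e : E n => v ∈ (e : Sym2 (Fin n)))).image
      (fun e : E n => (e : Sym2 (Fin n))) ⊆ (univ : Finset (Fin n)).image (fun w => s(v, w)) := by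
    intro x hx
    simp only [mem_image, mem_filter, mem_univ, true_and] at hx ⊢
    obtain ⟨e, he, rfl⟩ := hx
    obtain ⟨w, hw⟩ := Sym2.mem_iff_exists.mp he
    exact ⟨w, hw.symm⟩
  have h2 := (card_le_card h1).trans card_image_le
  rw [card_image_of_injective _ Subtype.val_injective] at h2
  simpa using h2

theorem card_E (n : ℕ) : Fintype.card (E n) = n.choose 2 := by
  rw [Sym2.card_subtype_not_diag, Fintype.card_fin]

/-- the ratio of the falling factorials -/
theorem ratio (M n : ℕ) (t : ℝ) (ht : t = -(8 * ((M : ℝ) + 1))) (hn : 8 * (M + 1) ≤ n)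
    (hn0 : 0 < n)
    (hx : Real.exp t / 2 < (1 + t / n) ^ n) (a b j : ℕ) (hj : j ≤ M * n) (hb : a ≤ b + n)
    (ha : (n : ℝ) ^ 2 / 8 ≤ a) :
    (Real.exp t / 2) ^ M * (a.descFactorial j : ℝ) ≤ b.descFactorial j := by
  have hnR : (0 : ℝ) < n := by exact_mod_cast hn0
  set x : ℝ := 1 + t / n with hxd
  have hx0 : 0 ≤ x := by
    have h1 : (8 * ((M : ℝ) + 1)) ≤ n := by exact_mod_cast hn
    have h2 : 8 * ((M : ℝ) + 1) / n ≤ 1 := by
      rw [div_le_one hnR]; exact h1
    rw [hxd, ht, neg_div]
    linarith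
  have hx1 : x ≤ 1 := by
    have h2 : 0 ≤ 8 * ((M : ℝ) + 1) / n := by positivity
    rw [hxd, ht, neg_div]
    linarith
  have hxa : x * a ≤ ((b + 1 - j : ℕ) : ℝ) := by
    have h1 : (a : ℝ) ≤ b + n := by exact_mod_cast hb
    have h2 : (j : ℝ) ≤ M * n := by exact_mod_cast hj
    have h3 : ((b : ℝ) + 1) ≤ ((b + 1 - j : ℕ) : ℝ) + j := by
      have : b + 1 ≤ (b + 1 - j) + j := by omega
      exact_mod_cast this
    have h4 : ((M : ℝ) + 1) * n ≤ 8 * ((M : ℝ) + 1) / n * a := by
      have h5 : ((M : ℝ) + 1) * n = 8 * ((M : ℝ) + 1) / n * ((n : ℝ) ^ 2 / 8) := by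
        field_simp
      rw [h5]
      exact mul_le_mul_of_nonneg_left ha (by positivity)
    have h6 : x * a = a - 8 * ((M : ℝ) + 1) / n * a := by
      rw [hxd, ht, neg_div]
      ring
    rw [h6]
    linarith
  have hc : (Real.exp t / 2) ^ M ≤ x ^ j := by
    have h1 : (Real.exp t / 2) ^ M ≤ (x ^ n) ^ M :=
      pow_le_pow_left₀ (by positivity) hx.le M
    refine h1.trans ?_
    rw [← pow_mul]
    exact pow_le_pow_of_le_one hx0 hx1 (by rw [mul_comm n M]; exact hj)
  have hd1 : (a.descFactorial j : ℝ) ≤ (a : ℝ) ^ j := by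
    exact_mod_cast Nat.descFactorial_le_pow a j
  have hd2 : (((b + 1 - j : ℕ) : ℝ)) ^ j ≤ b.descFactorial j := by
    exact_mod_cast Nat.pow_sub_le_descFactorial b j
  calc (Real.exp t / 2) ^ M * (a.descFactorial j : ℝ) ≤ x ^ j * (a : ℝ) ^ j :=
        mul_le_mul hc hd1 (by positivity) (by positivity)
    _ = (x * a) ^ j := (mul_pow _ _ _).symm
    _ ≤ (((b + 1 - j : ℕ) : ℝ)) ^ j := pow_le_pow_left₀ (by positivity) hxa j
    _ ≤ _ := hd2

/-- the numbers of the edges the choice depends on -/
def KK (M n : ℕ) : Finset (Fin (n.choose 2)) :=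
  univ.filter fun i => M * n ≤ (i : ℕ) ∧ (i : ℕ) < n.choose 2 / 2

/-- the first numbers -/
def JJ (M n : ℕ) : Finset (Fin (n.choose 2)) := univ.filter fun i => (i : ℕ) < M * n

theorem disj (M n : ℕ) : Disjoint (KK M n) (JJ M n) := by
  rw [Finset.disjoint_left]
  intro i hi hj
  simp only [KK, JJ, mem_filter, mem_univ, true_and] at hi hj
  omega

theorem card_lt (N m : ℕ) (s : Finset (Fin N)) (hs : ∀ i ∈ s, (i : ℕ) < m) : s.card ≤ m := by
  have h1 : s.image (fun i : Fin N => (i : ℕ)) ⊆ range m := by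
    intro x hx
    simp only [mem_image] at hx
    obtain ⟨i, hi, rfl⟩ := hx
    exact mem_range.mpr (hs i hi)
  have h2 := card_le_card h1
  rw [card_image_of_injective _ Fin.val_injective, card_range] at h2
  exact h2

theorem deg_zero_iff (M n : ℕ) (ω : Ord n) (v : Fin n) :
    deg (G ω (M * n)) v = 0 ↔ ∀ j ∈ JJ M n,
      ω j ∈ (univ.filter (fun e : E n => ¬ v ∈ (e : Sym2 (Fin n)))) := by
  unfold deg
  rw [Finset.card_eq_zero, Finset.filter_eq_empty_iff]
  constructor
  · intro h j hj
    have h1 : (j : ℕ) < M * n := by simpa [JJ] using hj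
    have h2 : ω j ∈ G ω (M * n) := by
      simp only [G, mem_filter, mem_univ, true_and, Equiv.symm_apply_apply]
      exact h1
    simp only [mem_filter, mem_univ, true_and]
    exact h h2
  · intro h e he
    simp only [G, mem_filter, mem_univ, true_and] at he
    have h1 := h (ω.symm e) (by simpa [JJ] using he)
    simpa using h1

/-- one class -/
theorem one_class (hC : S_CNT) (M n : ℕ) (t : ℝ) (ht : t = -(8 * ((M : ℝ) + 1)))
    (hn : 8 * (M + 1) ≤ n) (hn0 : 0 < n)
    (hx : Real.exp t / 2 < (1 + t / n) ^ n) (ω₀ : Ord n) (v : Fin n) :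
    (Real.exp t / 2) ^ M * (Nat.card {ω : Ord n // ∀ i ∈ KK M n, ω i = ω₀ i} : ℝ)
      ≤ Nat.card {ω : Ord n // (∀ i ∈ KK M n, ω i = ω₀ i) ∧ deg (G ω (M * n)) v = 0} := by
  set F : Finset (E n) := univ.filter (fun e : E n => ¬ v ∈ (e : Sym2 (Fin n))) with hF
  have e1 : Nat.card {ω : Ord n // ∀ i ∈ KK M n, ω i = ω₀ i}
      = (n.choose 2 - (KK M n).card).factorial := by
    have h1 := hC (Fin (n.choose 2)) (E n) ω₀ (KK M n) ∅ F (by simp)
    simp only [notMem_empty, false_imp_iff, implies_true, and_true, card_empty,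
      Nat.descFactorial_zero, one_mul, Nat.sub_zero, Fintype.card_fin] at h1
    exact h1
  have e2 : Nat.card {ω : Ord n // (∀ i ∈ KK M n, ω i = ω₀ i) ∧ deg (G ω (M * n)) v = 0}
      = ((F.filter (fun q => ∀ i ∈ KK M n, ω₀ i ≠ q)).card).descFactorial (JJ M n).card *
      (n.choose 2 - (KK M n).card - (JJ M n).card).factorial := by
    have h1 := hC (Fin (n.choose 2)) (E n) ω₀ (KK M n) (JJ M n) F (disj M n)
    rw [Fintype.card_fin] at h1
    have h2 : ∀ ω : Ord n, deg (G ω (M * n)) v = 0 ↔ ∀ j ∈ JJ M n, ω j ∈ F := by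
      intro ω
      rw [deg_zero_iff]
    simp only [h2]
    convert h1
  rw [e1, e2]
  set b := (F.filter (fun q => ∀ i ∈ KK M n, ω₀ i ≠ q)).card with hb
  set j := (JJ M n).card with hjd
  set a := n.choose 2 - (KK M n).card with had
  have hjM : j ≤ M * n := card_lt _ _ _ (by intro i hi; simpa [JJ] using hi)
  have hKc : (KK M n).card ≤ n.choose 2 / 2 :=
    card_lt _ _ _ (by intro i hi; simp only [KK, mem_filter, mem_univ, true_and] at hi; exact hi.2)
  have hKJ : (KK M n).card + j ≤ n.choose 2 := by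
    have h1 := card_le_univ (KK M n ∪ JJ M n)
    rw [card_union_of_disjoint (disj M n), Fintype.card_fin] at h1
    exact h1
  have hja : j ≤ a := by omega
  have haR : (n : ℝ) ^ 2 / 8 ≤ a := by
    have h1 : n.choose 2 ≤ 2 * a := by omega
    have h2 : ((n.choose 2 : ℕ) : ℝ) ≤ 2 * a := by exact_mod_cast h1
    rw [Nat.cast_choose_two] at h2
    have h3 : (8 : ℝ) ≤ n := by
      have : 8 ≤ n := by nlinarith
      exact_mod_cast this
    nlinarith
  have hab : a ≤ b + n := by
    have h1 : (univ : Finset (E n)) ⊆ (F.filter (fun q => ∀ i ∈ KK M n, ω₀ i ≠ q))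
        ∪ ((univ.filter (fun e : E n => v ∈ (e : Sym2 (Fin n)))) ∪ (KK M n).image ω₀) := by
      intro e _
      by_cases h2 : v ∈ (e : Sym2 (Fin n))
      · simp [h2]
      · by_cases h3 : ∃ i ∈ KK M n, ω₀ i = e
        · simp only [mem_union, mem_image]
          exact Or.inr (Or.inr h3)
        · push Not at h3
          simp only [mem_union, mem_filter, hF, mem_univ, true_and]
          exact Or.inl ⟨h2, h3⟩
    have h4 := card_le_card h1
    rw [card_univ, card_E] at h4
    have h5 := card_union_le (F.filter (fun q => ∀ i ∈ KK M n, ω₀ i ≠ q))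
      ((univ.filter (fun e : E n => v ∈ (e : Sym2 (Fin n)))) ∪ (KK M n).image ω₀)
    have h6 := card_union_le (univ.filter (fun e : E n => v ∈ (e : Sym2 (Fin n))))
      ((KK M n).image ω₀)
    have h7 := card_at n v
    have h8 : ((KK M n).image ω₀).card ≤ (KK M n).card := card_image_le
    omega
  have hr := ratio M n t ht hn hn0 hx a b j hjM hab haR
  have hfac : ((a.factorial : ℕ) : ℝ) = (a.descFactorial j : ℝ) * ((a - j).factorial : ℝ) := by
    rw [← Nat.factorial_mul_descFactorial hja]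
    push_cast
    ring
  rw [hfac]
  push_cast
  rw [← mul_assoc]
  exact mul_le_mul_of_nonneg_right hr (by positivity)

end IsoAux

open IsoAux in
theorem iso (hC : S_CNT) : S_ISO := by
  intro M
  obtain ⟨t, ht⟩ : ∃ t : ℝ, t = -(8 * ((M : ℝ) + 1)) := ⟨_, rfl⟩
  refine ⟨(Real.exp t / 2) ^ M, by positivity, ?_⟩
  have h1 : ∀ᶠ n : ℕ in atTop, Real.exp t / 2 < (1 + t / n) ^ n := by
    have h2 := Real.tendsto_one_add_div_pow_exp t
    exact h2.eventually (lt_mem_nhds (by have := Real.exp_pos t; linarith))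
  filter_upwards [h1, eventually_ge_atTop (8 * (M + 1))] with n hx hn
  intro A f hAf
  have hn0 : 0 < n := by omega
  set c := (Real.exp t / 2) ^ M with hc
  have key : c * ((univ.filter fun ω : Ord n => A ω).card : ℝ)
      ≤ ((univ.filter fun ω : Ord n => A ω ∧ deg (G ω (M * n)) (f ω) = 0).card : ℝ) := by
    set g : Ord n → (KK M n → E n) := fun ω i => ω i with hg
    have hgi : ∀ ω ω' : Ord n, g ω = g ω' ↔ ∀ i ∈ KK M n, ω i = ω' i := by
      intro ω ω'
      constructor
      · intro h i hi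
        exact congrFun h ⟨i, hi⟩
      · intro h
        funext i
        exact h i i.2
    have hcl : ∀ ω ω' : Ord n, g ω = g ω' → (A ω ↔ A ω') ∧ f ω = f ω' := by
      intro ω ω' h
      refine hAf ω ω' fun i hi1 hi2 => (hgi ω ω').mp h i ?_
      simp only [KK, mem_filter, mem_univ, true_and]
      exact ⟨hi1, hi2⟩
    rw [card_eq_sum_card_fiberwise (f := g) (t := univ) (fun _ _ => by simp),
      card_eq_sum_card_fiberwise (s := univ.filter fun ω : Ord n =>
        A ω ∧ deg (G ω (M * n)) (f ω) = 0) (f := g) (t := univ) (fun _ _ => by simp)]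
    push_cast
    rw [mul_sum]
    refine sum_le_sum fun b _ => ?_
    by_cases hb : ∃ ω₀ : Ord n, A ω₀ ∧ g ω₀ = b
    · obtain ⟨ω₀, hA0, hg0⟩ := hb
      have e1 : ((univ.filter fun ω : Ord n => A ω).filter fun ω => g ω = b)
          = univ.filter fun ω : Ord n => ∀ i ∈ KK M n, ω i = ω₀ i := by
        ext ω
        simp only [mem_filter, mem_univ, true_and]
        rw [← hg0, ← hgi]
        constructor
        · exact fun h => h.2
        · intro h
          exact ⟨(hcl ω ω₀ h).1.mpr hA0, h⟩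
      have e2 : ((univ.filter fun ω : Ord n => A ω ∧ deg (G ω (M * n)) (f ω) = 0).filter
            fun ω => g ω = b)
          = univ.filter fun ω : Ord n => (∀ i ∈ KK M n, ω i = ω₀ i)
            ∧ deg (G ω (M * n)) (f ω₀) = 0 := by
        ext ω
        simp only [mem_filter, mem_univ, true_and]
        rw [← hg0, ← hgi]
        constructor
        · intro h
          refine ⟨h.2, ?_⟩
          rw [← (hcl ω ω₀ h.2).2]
          exact h.1.2
        · intro h
          refine ⟨⟨(hcl ω ω₀ h.1).1.mpr hA0, ?_⟩, h.1⟩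
          rw [(hcl ω ω₀ h.1).2]
          exact h.2
      rw [e1, e2]
      have h3 := one_class hC M n t ht hn hn0 hx ω₀ (f ω₀)
      rw [Nat.card_eq_fintype_card, Nat.card_eq_fintype_card, Fintype.card_subtype,
        Fintype.card_subtype] at h3
      exact h3
    · have e1 : ((univ.filter fun ω : Ord n => A ω).filter fun ω => g ω = b) = ∅ := by
        rw [filter_eq_empty_iff]
        intro ω hω h
        exact hb ⟨ω, by simpa using hω, h⟩
      rw [e1]
      simp
  unfold Pr
  rw [Nat.card_eq_fintype_card, Nat.card_eq_fintype_card, Nat.card_eq_fintype_card,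
    Fintype.card_subtype, Fintype.card_subtype, ← mul_div_assoc]
  exact div_le_div_of_nonneg_right key (by positivity)

end

end Pool.Agent.N956.BG
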