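import Pool.Agent.N956.BG.Stm

/-!
# BG / MIN: minimum degree of the edges with numbers in `[M n, N / 2)`
-/

set_option autoImplicit false

namespace Pool.Agent.N956.BG

open Finset Filter Topology
open scoped Classical

namespace MinDeg

theorem pr_union {n : ℕ} (A : Fin n → Ord n → Prop) :
    Pr n (fun ω => ∃ v, A v ω) ≤ ∑ v, Pr n (A v) := by
  unfold Pr
  rw [← Finset.sum_div]
  apply div_le_div_of_nonneg_right _ (by positivity)
  have h1 : Nat.card {ω : Ord n // ∃ v, A v ω} ≤ Nat.card (Σ v : Fin n, {ω : Ord n // A v ω}) := by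
    apply Nat.card_le_card_of_injective
      (fun x : {ω : Ord n // ∃ v, A v ω} =>
        (⟨x.2.choose, ⟨x.1, x.2.choose_spec⟩⟩ : Σ v : Fin n, {ω : Ord n // A v ω}))
    intro x y hxy
    apply Subtype.ext
    have h2 : ∀ (a b : Σ v : Fin n, {ω : Ord n // A v ω}), a = b → a.2.1 = b.2.1 := by
      rintro a b rfl
      rfl
    exact h2 _ _ hxy
  rw [Nat.card_sigma] at h1
  exact_mod_cast h1

theorem pr_mono {n : ℕ} (A B : Ord n → Prop) (h : ∀ ω, A ω → B ω) : Pr n A ≤ Pr n B := by
  unfold Pr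
  apply div_le_div_of_nonneg_right _ (by positivity)
  have h1 : Nat.card {ω : Ord n // A ω} ≤ Nat.card {ω : Ord n // B ω} := by
    apply Nat.card_le_card_of_injective
      (fun x : {ω : Ord n // A ω} => (⟨x.1, h _ x.2⟩ : {ω : Ord n // B ω}))
    intro x y hxy
    apply Subtype.ext
    have h2 : ∀ (a b : {ω : Ord n // B ω}), a = b → a.1 = b.1 := by
      rintro a b rfl
      rfl
    exact h2 _ _ hxy
  exact_mod_cast h1

theorem pr_nonneg {n : ℕ} (A : Ord n → Prop) : 0 ≤ Pr n A := by
  unfold Pr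
  positivity

/-- edges at a vertex -/
noncomputable def Fv {n : ℕ} (v : Fin n) : Finset (E n) :=
  univ.filter (fun e : E n => v ∈ (e : Sym2 (Fin n)))

theorem card_Fv {n : ℕ} (v : Fin n) : n - 1 ≤ (Fv v).card := by
  have h1 : Fintype.card {w : Fin n // w ≠ v} ≤ Fintype.card (Fv v) := by
    apply Fintype.card_le_of_injective
      (fun w : {w : Fin n // w ≠ v} =>
        (⟨⟨s(v, w.1), fun h => w.2 (Sym2.mk_isDiag_iff.1 h).symm⟩, by
          simp [Fv]⟩ : Fv v))
    intro x y hxy
    have h2 : s(v, x.1) = s(v, y.1) := congrArg (fun e : Fv v => e.1.1) hxy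
    apply Subtype.ext
    rw [Sym2.eq_iff] at h2
    rcases h2 with ⟨_, h2⟩ | ⟨h2, h3⟩
    · exact h2
    · exact h3.trans h2
  have h2 : Fintype.card {w : Fin n // w ≠ v} = n - 1 := by
    rw [Fintype.card_subtype_compl]
    simp
  rw [h2] at h1
  simpa using h1

/-- index set -/
noncomputable def J (M n : ℕ) : Finset (Fin (n.choose 2)) :=
  univ.filter (fun i => M * n ≤ (i : ℕ) ∧ (i : ℕ) < n.choose 2 / 2)

theorem card_J (M n : ℕ) : (J M n).card = n.choose 2 / 2 - M * n := by
  have h1 : (J M n).card = (Finset.Ico (M * n) (n.choose 2 / 2)).card := by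
    apply Finset.card_bij (fun (i : Fin (n.choose 2)) _ => (i : ℕ))
    · intro i hi
      simp only [J, Finset.mem_filter, Finset.mem_univ, true_and] at hi
      simp [hi.1, hi.2]
    · intro a _ b _ h
      exact Fin.ext h
    · intro b hb
      rw [Finset.mem_Ico] at hb
      exact ⟨⟨b, by omega⟩, by simp [J, hb.1, hb.2], rfl⟩
  rw [h1, Nat.card_Ico]

/-- the coercion of a finite set of edges to a finite set of pairs in the definition of `deg` is
injective on elements, so the degree is what it should be -/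
theorem deg_eq {n : ℕ} (F : Finset (E n)) (v : Fin n) :
    deg F v = (F.filter (fun e : E n => v ∈ e.1)).card := rfl

theorem deg_Gb {n : ℕ} (M : ℕ) (ω : Ord n) (v : Fin n) :
    deg (Gb ω (M * n) (n.choose 2 / 2)) v = ((J M n).filter (fun i => ω i ∈ Fv v)).card := by
  rw [deg_eq]
  unfold Gb
  apply Finset.card_bij (fun (e : E n) _ => ω.symm e)
  · intro e he
    simp only [Finset.mem_filter, Finset.mem_univ, true_and] at he
    simp only [J, Fv, Finset.mem_filter, Finset.mem_univ, true_and, Equiv.apply_symm_apply]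
    exact he
  · intro a _ b _ h
    exact ω.symm.injective h
  · intro i hi
    simp only [J, Fv, Finset.mem_filter, Finset.mem_univ, true_and] at hi
    refine ⟨ω i, ?_, by simp⟩
    simp only [Finset.mem_filter, Finset.mem_univ, true_and, Equiv.symm_apply_apply]
    exact hi

theorem key (hH : S_HYP) (r M n : ℕ) (hn : 8 * (M + 1 + r) ≤ n) :
    Pr n (fun ω => ∃ v, deg (Gb ω (M * n) (n.choose 2 / 2)) v < r + 1) ≤
      (n : ℝ) ^ (2 * r + 1) * Real.exp (-((n : ℝ) / 4)) := by
  have hn2 : 2 ≤ n := by omega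
  have hnR : (2 : ℝ) ≤ (n : ℝ) := by exact_mod_cast hn2
  have hN : (n.choose 2 : ℝ) = (n : ℝ) * ((n : ℝ) - 1) / 2 := Nat.cast_choose_two ℝ n
  have hNle : (n.choose 2 : ℝ) ≤ (n : ℝ) ^ 2 := by
    rw [hN]
    nlinarith
  -- card of J
  have hJ : (n : ℝ) ^ 2 / 8 + r ≤ ((J M n).card : ℝ) := by
    rw [card_J]
    have h1 : n.choose 2 ≤ 2 * (n.choose 2 / 2) + 1 := by omega
    have h1R : (n.choose 2 : ℝ) ≤ 2 * ((n.choose 2 / 2 : ℕ) : ℝ) + 1 := by exact_mod_cast h1
    have h2 : ((n.choose 2 / 2 : ℕ) : ℝ) ≤ ((n.choose 2 / 2 - M * n : ℕ) : ℝ) + (M : ℝ) * n := by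
      have h3 : n.choose 2 / 2 ≤ (n.choose 2 / 2 - M * n) + M * n := by omega
      exact_mod_cast h3
    have hnR' : 8 * ((M : ℝ) + 1 + r) ≤ n := by exact_mod_cast hn
    have hr0 : (0 : ℝ) ≤ r := Nat.cast_nonneg r
    have hM0 : (0 : ℝ) ≤ M := Nat.cast_nonneg M
    have h5 : 8 * ((M : ℝ) + 1 + r) * n ≤ n * n := mul_le_mul_of_nonneg_right hnR' (by linarith)
    nlinarith [mul_nonneg hr0 (by linarith : (0 : ℝ) ≤ (n : ℝ) - 1)]
  have hJr : r ≤ (J M n).card := by
    have h1 : (r : ℝ) ≤ ((J M n).card : ℝ) := by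
      have : (0 : ℝ) ≤ (n : ℝ) ^ 2 / 8 := by positivity
      linarith
    exact_mod_cast h1
  have hJle : ((J M n).card : ℝ) ≤ (n : ℝ) ^ 2 := by
    refine le_trans ?_ hNle
    have h1 : (J M n).card ≤ n.choose 2 := by
      have := Finset.card_le_univ (J M n)
      simpa using this
    exact_mod_cast h1
  have hsub : (n : ℝ) ^ 2 / 8 ≤ (((J M n).card - r : ℕ) : ℝ) := by
    rw [Nat.cast_sub hJr]
    linarith
  -- one vertex
  have hone : ∀ v : Fin n, Pr n (fun ω => deg (Gb ω (M * n) (n.choose 2 / 2)) v < r + 1) ≤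
      (n : ℝ) ^ (2 * r) * Real.exp (-((n : ℝ) / 4)) := by
    intro v
    have h1 : Pr n (fun ω => deg (Gb ω (M * n) (n.choose 2 / 2)) v < r + 1) ≤
        Pr n (fun ω => ((J M n).filter (fun i => ω i ∈ Fv v)).card ≤ r) := by
      apply pr_mono
      intro ω hω
      rw [deg_Gb] at hω
      omega
    refine h1.trans ((hH n (J M n) (Fv v) r hn2 hJr).trans ?_)
    have hc : ((n : ℝ) - 1) ≤ ((Fv v).card : ℝ) := by
      have h2 : n ≤ (Fv v).card + 1 := by
        have := card_Fv v
        omega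
      have h3 : (n : ℝ) ≤ ((Fv v).card : ℝ) + 1 := by exact_mod_cast h2
      linarith
    have hNpos : (0 : ℝ) < (n.choose 2 : ℝ) := by
      rw [hN]
      have : (0 : ℝ) < (n : ℝ) * ((n : ℝ) - 1) := mul_pos (by linarith) (by linarith)
      linarith
    have hFN : ((Fv v).card : ℝ) ≤ (n.choose 2 : ℝ) := by
      have h2 : (Fv v).card ≤ n.choose 2 := by
        have h3 := Finset.card_le_univ (Fv v)
        have h4 : Fintype.card (E n) = n.choose 2 := by
          have := Sym2.card_subtype_not_diag (α := Fin n)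
          simpa using this
        omega
      exact_mod_cast h2
    have hfrac : 2 / (n : ℝ) ≤ ((Fv v).card : ℝ) / (n.choose 2 : ℝ) := by
      rw [div_le_div_iff₀ (by linarith) hNpos, hN]
      nlinarith
    have hb0 : 0 ≤ 1 - ((Fv v).card : ℝ) / (n.choose 2 : ℝ) := by
      rw [sub_nonneg, div_le_one hNpos]
      exact hFN
    have hb1 : 1 - ((Fv v).card : ℝ) / (n.choose 2 : ℝ) ≤ Real.exp (-(2 / (n : ℝ))) := by
      have := Real.add_one_le_exp (-(2 / (n : ℝ)))
      linarith
    apply mul_le_mul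
    · have h2 : (((J M n).card.choose r : ℕ) : ℝ) ≤ ((J M n).card : ℝ) ^ r := by
        exact_mod_cast Nat.choose_le_pow _ _
      refine h2.trans ?_
      rw [pow_mul]
      exact pow_le_pow_left₀ (Nat.cast_nonneg _) hJle r
    · refine (pow_le_pow_left₀ hb0 hb1 _).trans ?_
      rw [← Real.exp_nat_mul]
      apply Real.exp_le_exp.2
      have h3 : (n : ℝ) / 4 ≤ (((J M n).card - r : ℕ) : ℝ) * (2 / (n : ℝ)) := by
        have h4 : (n : ℝ) / 4 = (n : ℝ) ^ 2 / 8 * (2 / (n : ℝ)) := by
          field_simp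
          norm_num
        rw [h4]
        exact mul_le_mul_of_nonneg_right hsub (by positivity)
      linarith
    · positivity
    · positivity
  refine (pr_union _).trans ?_
  refine (Finset.sum_le_sum fun v _ => hone v).trans ?_
  rw [Finset.sum_const, Finset.card_univ, Fintype.card_fin, nsmul_eq_mul]
  apply le_of_eq
  ring

end MinDeg

/-- Leaf MIN of project BG. -/
theorem min_deg (hH : S_HYP) : S_MIN := by
  intro k M
  rcases Nat.eq_zero_or_pos k with rfl | hk
  · have h1 : ∀ n : ℕ, Pr n (fun ω => ∃ v, deg (Gb ω (M * n) (n.choose 2 / 2)) v < 0) = 0 := by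
      intro n
      unfold Pr
      have : Nat.card {ω : Ord n // ∃ v, deg (Gb ω (M * n) (n.choose 2 / 2)) v < 0} = 0 := by
        have : IsEmpty {ω : Ord n // ∃ v, deg (Gb ω (M * n) (n.choose 2 / 2)) v < 0} :=
          ⟨fun x => by
            obtain ⟨v, hv⟩ := x.2
            exact Nat.not_lt_zero _ hv⟩
        exact Nat.card_of_isEmpty
      rw [this]
      simp
    simp only [h1]
    exact tendsto_const_nhds
  · obtain ⟨r, rfl⟩ : ∃ r, k = r + 1 := ⟨k - 1, by omega⟩
    have hlim : Tendsto (fun n : ℕ => (4 : ℝ) ^ (2 * r + 1) *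
        (((n : ℝ) / 4) ^ (2 * r + 1) * Real.exp (-((n : ℝ) / 4)))) atTop (𝓝 0) := by
      have h1 := Real.tendsto_pow_mul_exp_neg_atTop_nhds_zero (2 * r + 1)
      have h2 : Tendsto (fun n : ℕ => (n : ℝ) / 4) atTop atTop :=
        (tendsto_natCast_atTop_atTop (R := ℝ)).atTop_div_const (by norm_num)
      have h3 := (h1.comp h2).const_mul ((4 : ℝ) ^ (2 * r + 1))
      simpa using h3
    refine squeeze_zero' (Eventually.of_forall fun n => MinDeg.pr_nonneg _) ?_ hlim
    filter_upwards [eventually_ge_atTop (8 * (M + 1 + r))] with n hn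
    refine (MinDeg.key hH r M n hn).trans (le_of_eq ?_)
    rw [div_pow]
    field_simp

end Pool.Agent.N956.BG
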