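import Pool.Agent.N956.BG.Stm

/-!
# The constant `o_k` is at least `k/2 + 1/4`
-/

set_option autoImplicit false

namespace Pool.Agent.N956.BG

open Finset Filter Topology
open scoped Classical

/-- In a finite set exactly `min k |W|` elements have rank less than `k`. -/
theorem okl_rank_card {α β : Type*} [LinearOrder β] (W : Finset α) (g : α → β)
    (hg : Function.Injective g) (k : ℕ) :
    (W.filter (fun e => (W.filter (fun e' => g e' < g e)).card < k)).card = min k W.card := by
  set f : α → ℕ := fun e => (W.filter (fun e' => g e' < g e)).card with hf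
  have hlt : ∀ a ∈ W, ∀ b ∈ W, g a < g b → f a < f b := by
    intro a ha b hb hab
    apply Finset.card_lt_card
    rw [Finset.ssubset_iff_of_subset]
    · exact ⟨a, by simp [ha, hab], by simp⟩
    · intro x hx
      simp only [mem_filter] at hx ⊢
      exact ⟨hx.1, hx.2.trans hab⟩
  have hinj : Set.InjOn f (W : Set α) := by
    intro a ha b hb hab
    rcases lt_trichotomy (g a) (g b) with h | h | h
    · exact absurd hab (ne_of_lt (hlt a ha b hb h))
    · exact hg h
    · exact absurd hab.symm (ne_of_lt (hlt b hb a ha h))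
  have himg : W.image f = range W.card := by
    apply Finset.eq_of_subset_of_card_le
    · intro x hx
      obtain ⟨a, ha, rfl⟩ := Finset.mem_image.mp hx
      rw [Finset.mem_range]
      apply Finset.card_lt_card
      rw [Finset.ssubset_iff_of_subset (Finset.filter_subset _ _)]
      exact ⟨a, ha, by simp⟩
    · rw [Finset.card_range, Finset.card_image_of_injOn hinj]
  have h1 : (W.filter (fun e => f e < k)).card = ((W.image f).filter (fun x => x < k)).card := by
    rw [Finset.filter_image, Finset.card_image_of_injOn]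
    exact hinj.mono (by intro x hx; simp at hx; exact hx.1)
  rw [h1, himg]
  have h2 : (range W.card).filter (fun x => x < k) = range (min k W.card) := by
    ext x
    simp [and_comm]
  rw [h2, Finset.card_range]

/-- The edges at `v`. -/
noncomputable def okl_W {n : ℕ} (v : Fin n) : Finset (E n) :=
  univ.filter (fun e => v ∈ (e : Sym2 (Fin n)))

theorem okl_W_card {n : ℕ} (v : Fin n) : (okl_W v).card = n - 1 := by
  have h : (okl_W v).card = (univ.erase v : Finset (Fin n)).card := by
    symm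
    refine Finset.card_bij (fun w hw => (⟨s(v, w), by
      rw [Sym2.mk_isDiag_iff]
      exact fun h => (Finset.mem_erase.mp hw).1 h.symm⟩ : E n)) ?_ ?_ ?_
    · intro w hw
      simp [okl_W]
    · intro a ha b hb hab
      simp only [Subtype.mk.injEq] at hab
      exact Sym2.congr_right.mp hab
    · intro e he
      simp only [okl_W, mem_filter, mem_univ, true_and] at he
      obtain ⟨w, hw⟩ := Sym2.mem_iff_exists.mp he
      have hne : w ≠ v := by
        intro h
        apply e.2
        rw [hw, Sym2.mk_isDiag_iff]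
        exact h.symm
      exact ⟨w, by simp [hne], Subtype.ext hw.symm⟩
  rw [h, Finset.card_erase_of_mem (Finset.mem_univ _), Finset.card_univ, Fintype.card_fin]

/-- The number of edges at `v` before `e`. -/
noncomputable def okl_b {n : ℕ} (ω : Ord n) (v : Fin n) (e : E n) : ℕ :=
  (univ.filter (fun e' : E n => v ∈ (e' : Sym2 (Fin n)) ∧ ω.symm e' < ω.symm e)).card

theorem okl_b_eq {n : ℕ} (ω : Ord n) (v : Fin n) (e : E n) :
    okl_b ω v e = ((okl_W v).filter (fun e' => ω.symm e' < ω.symm e)).card := by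
  unfold okl_b okl_W
  rw [Finset.filter_filter]

theorem okl_good_card {n k : ℕ} (hk : k + 1 ≤ n) (ω : Ord n) (v : Fin n) :
    ((okl_W v).filter (fun e => okl_b ω v e < k)).card = k := by
  have h := okl_rank_card (okl_W v) (fun e => ω.symm e) ω.symm.injective k
  rw [okl_W_card] at h
  rw [Nat.min_eq_left (by omega)] at h
  simp only [okl_b_eq]
  convert h

/-- The edges good at both ends. -/
noncomputable def okl_both {n : ℕ} (k : ℕ) (ω : Ord n) : Finset (E n) :=
  univ.filter (fun e => ∀ v ∈ (e : Sym2 (Fin n)), okl_b ω v e < k)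

/-- The number of ends at which `e` is good. -/
noncomputable def okl_c {n : ℕ} (k : ℕ) (ω : Ord n) (e : E n) : ℕ :=
  (univ.filter (fun v : Fin n => v ∈ (e : Sym2 (Fin n)) ∧ okl_b ω v e < k)).card

theorem okl_sum_c {n k : ℕ} (hk : k + 1 ≤ n) (ω : Ord n) : ∑ e : E n, okl_c k ω e = k * n := by
  have h1 : ∀ e : E n, okl_c k ω e =
      ∑ v : Fin n, if (v ∈ (e : Sym2 (Fin n)) ∧ okl_b ω v e < k) then 1 else 0 := by
    intro e
    rw [okl_c, Finset.card_filter]
  simp_rw [h1]
  rw [Finset.sum_comm]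
  have h2 : ∀ v : Fin n, (∑ e : E n, if (v ∈ (e : Sym2 (Fin n)) ∧ okl_b ω v e < k) then 1 else 0)
      = k := by
    intro v
    rw [← Finset.card_filter]
    have := okl_good_card hk ω v
    rw [okl_W, Finset.filter_filter] at this
    exact this
  rw [Finset.sum_congr rfl (fun v _ => h2 v)]
  simp [mul_comm]

theorem okl_ends {n : ℕ} (e : E n) : ∃ u w : Fin n, u ≠ w ∧ (e : Sym2 (Fin n)) = s(u, w) := by
  obtain ⟨e, he⟩ := e
  induction e using Sym2.ind with
  | _ u w => exact ⟨u, w, by rwa [Sym2.mk_isDiag_iff] at he, rfl⟩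

theorem okl_c_eq {n k : ℕ} (ω : Ord n) (e : E n) {u w : Fin n} (huw : u ≠ w)
    (he : (e : Sym2 (Fin n)) = s(u, w)) :
    okl_c k ω e = (if okl_b ω u e < k then 1 else 0) + (if okl_b ω w e < k then 1 else 0) := by
  have h : okl_c k ω e = (({u, w} : Finset (Fin n)).filter (fun v => okl_b ω v e < k)).card := by
    unfold okl_c
    congr 1
    ext v
    simp only [he, Sym2.mem_iff, mem_filter, mem_univ, true_and, mem_insert, mem_singleton]
  rw [h, Finset.card_filter, Finset.sum_pair huw]

theorem okl_near_iff {n k : ℕ} (ω : Ord n) (e : E n) {u w : Fin n}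
    (he : (e : Sym2 (Fin n)) = s(u, w)) :
    e ∈ nearest k ω ↔ okl_b ω u e < k ∨ okl_b ω w e < k := by
  unfold nearest
  rw [mem_filter]
  simp only [mem_univ, true_and]
  constructor
  · rintro ⟨v, hv, hv2⟩
    rw [he, Sym2.mem_iff] at hv
    rcases hv with rfl | rfl
    · exact Or.inl hv2
    · exact Or.inr hv2
  · rintro (h | h)
    · exact ⟨u, by rw [he]; simp, h⟩
    · exact ⟨w, by rw [he]; simp, h⟩

theorem okl_both_iff {n k : ℕ} (ω : Ord n) (e : E n) {u w : Fin n}
    (he : (e : Sym2 (Fin n)) = s(u, w)) :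
    e ∈ okl_both k ω ↔ okl_b ω u e < k ∧ okl_b ω w e < k := by
  unfold okl_both
  rw [mem_filter]
  simp only [mem_univ, true_and, he, Sym2.mem_iff, forall_eq_or_imp, forall_eq]

theorem okl_c_le {n k : ℕ} (ω : Ord n) (e : E n) :
    okl_c k ω e = (if e ∈ nearest k ω then 1 else 0) + (if e ∈ okl_both k ω then 1 else 0) := by
  obtain ⟨u, w, huw, he⟩ := okl_ends e
  rw [okl_c_eq ω e huw he]
  simp only [okl_near_iff ω e he, okl_both_iff ω e he]
  by_cases h1 : okl_b ω u e < k <;> by_cases h2 : okl_b ω w e < k <;> simp [h1, h2]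

/-- The edges of the nearest neighbour graph are counted once or twice. -/
theorem okl_count {n k : ℕ} (hk : k + 1 ≤ n) (ω : Ord n) :
    (nearest k ω).card + (okl_both k ω).card = k * n := by
  rw [← okl_sum_c hk ω]
  simp_rw [okl_c_le]
  rw [Finset.sum_add_distrib, Finset.sum_ite_mem, Finset.sum_ite_mem]
  simp

/-- The edges meeting `e`. -/
noncomputable def okl_M {n : ℕ} (e : E n) : Finset (E n) :=
  univ.filter (fun e' => ∃ v ∈ (e : Sym2 (Fin n)), v ∈ (e' : Sym2 (Fin n)))

theorem okl_M_eq {n : ℕ} (e : E n) {u w : Fin n} (he : (e : Sym2 (Fin n)) = s(u, w)) :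
    okl_M e = okl_W u ∪ okl_W w := by
  ext x
  unfold okl_M okl_W
  simp only [he, mem_filter, mem_univ, true_and, mem_union, Sym2.mem_iff]
  constructor
  · rintro ⟨v, rfl | rfl, hv⟩
    · exact Or.inl hv
    · exact Or.inr hv
  · rintro (h | h)
    · exact ⟨u, Or.inl rfl, h⟩
    · exact ⟨w, Or.inr rfl, h⟩

theorem okl_M_card {n : ℕ} (e : E n) : 2 * n ≤ (okl_M e).card + 3 := by
  obtain ⟨u, w, huw, he⟩ := okl_ends e
  rw [okl_M_eq e he]
  have h := Finset.card_union_add_card_inter (okl_W u) (okl_W w)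
  rw [okl_W_card, okl_W_card] at h
  have h2 : (okl_W u ∩ okl_W w).card ≤ 1 := by
    rw [Finset.card_le_one]
    intro a ha b hb
    simp only [okl_W, mem_inter, mem_filter, mem_univ, true_and] at ha hb
    apply Subtype.ext
    rw [(Sym2.mem_and_mem_iff huw).mp ha, (Sym2.mem_and_mem_iff huw).mp hb]
  omega

theorem okl_self_mem_M {n : ℕ} (e : E n) : e ∈ okl_M e := by
  obtain ⟨u, w, huw, he⟩ := okl_ends e
  rw [okl_M_eq e he]
  simp [okl_W, he]

/-- The rank of `e` in `W`. -/
noncomputable def okl_R {n : ℕ} (W : Finset (E n)) (ω : Ord n) (e : E n) : ℕ :=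
  (W.filter (fun e' => ω.symm e' < ω.symm e)).card

theorem okl_both_R {n k : ℕ} (ω : Ord n) (e : E n) (h : e ∈ okl_both k ω) :
    okl_R (okl_M e) ω e < 2 * k - 1 := by
  obtain ⟨u, w, huw, he⟩ := okl_ends e
  rw [okl_both_iff ω e he] at h
  have h3 : okl_R (okl_M e) ω e ≤ okl_b ω u e + okl_b ω w e := by
    rw [okl_b_eq, okl_b_eq, okl_R, okl_M_eq e he, Finset.filter_union]
    exact Finset.card_union_le _ _
  omega

theorem okl_R_swap {n : ℕ} (W : Finset (E n)) (ω : Ord n) {e e' : E n} (he : e ∈ W)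
    (he' : e' ∈ W) : okl_R W (ω.trans (Equiv.swap e e')) e' = okl_R W ω e := by
  unfold okl_R
  have hW : ∀ x, x ∈ W → Equiv.swap e e' x ∈ W := by
    intro x hx
    by_cases h1 : x = e
    · rw [h1, Equiv.swap_apply_left]; exact he'
    · by_cases h2 : x = e'
      · rw [h2, Equiv.swap_apply_right]; exact he
      · rw [Equiv.swap_apply_of_ne_of_ne h1 h2]; exact hx
  refine Finset.card_nbij' (Equiv.swap e e') (Equiv.swap e e') ?_ ?_ ?_ ?_
  · intro x hx
    simp only [coe_filter, Set.mem_ofPred_eq, Equiv.symm_trans_apply, Equiv.symm_swap,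
      Equiv.swap_apply_right] at hx ⊢
    exact ⟨hW x hx.1, hx.2⟩
  · intro x hx
    simp only [coe_filter, Set.mem_ofPred_eq, Equiv.symm_trans_apply, Equiv.symm_swap,
      Equiv.swap_apply_right, Equiv.swap_apply_self] at hx ⊢
    exact ⟨hW x hx.1, hx.2⟩
  · intro x _
    simp
  · intro x _
    simp

theorem okl_card_swap {n m : ℕ} (W : Finset (E n)) {e e' : E n} (he : e ∈ W) (he' : e' ∈ W) :
    (univ.filter (fun ω : Ord n => okl_R W ω e < m)).card =
      (univ.filter (fun ω : Ord n => okl_R W ω e' < m)).card := by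
  refine Finset.card_nbij' (fun ω => ω.trans (Equiv.swap e e'))
    (fun ω => ω.trans (Equiv.swap e e')) ?_ ?_ ?_ ?_
  · intro ω hω
    simp only [coe_filter, mem_univ, true_and, Set.mem_ofPred_eq] at hω ⊢
    rw [okl_R_swap W ω he he']
    exact hω
  · intro ω hω
    simp only [coe_filter, mem_univ, true_and, Set.mem_ofPred_eq] at hω ⊢
    rw [Equiv.swap_comm, okl_R_swap W ω he' he]
    exact hω
  · intro ω _
    ext x
    simp
  · intro ω _
    ext x
    simp

theorem okl_sym {n m : ℕ} (W : Finset (E n)) {e : E n} (he : e ∈ W) :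
    W.card * (univ.filter (fun ω : Ord n => okl_R W ω e < m)).card ≤ m * Fintype.card (Ord n) := by
  have h1 : W.card * (univ.filter (fun ω : Ord n => okl_R W ω e < m)).card =
      ∑ e' ∈ W, (univ.filter (fun ω : Ord n => okl_R W ω e' < m)).card := by
    rw [Finset.sum_congr rfl (fun e' he' => (okl_card_swap (m := m) W he he').symm)]
    simp
  rw [h1]
  have h2 : ∑ e' ∈ W, (univ.filter (fun ω : Ord n => okl_R W ω e' < m)).card =
      ∑ ω : Ord n, (W.filter (fun e' => okl_R W ω e' < m)).card := by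
    simp_rw [Finset.card_filter]
    rw [Finset.sum_comm]
  rw [h2]
  have h3 : ∀ ω : Ord n, (W.filter (fun e' => okl_R W ω e' < m)).card ≤ m := by
    intro ω
    have := okl_rank_card W (fun e => ω.symm e) ω.symm.injective m
    unfold okl_R
    calc _ = min m W.card := by convert this
      _ ≤ m := min_le_left _ _
  calc _ ≤ ∑ ω : Ord n, m := Finset.sum_le_sum (fun ω _ => h3 ω)
    _ = _ := by simp [mul_comm]

theorem okl_EY {n k : ℕ} (hn : 2 ≤ n) :
    (2 * n - 3) * ∑ ω : Ord n, (okl_both k ω).card ≤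
      (n.choose 2) * ((2 * k - 1) * Fintype.card (Ord n)) := by
  have h1 : ∑ ω : Ord n, (okl_both k ω).card =
      ∑ e : E n, (univ.filter (fun ω : Ord n => e ∈ okl_both k ω)).card := by
    simp_rw [Finset.card_filter]
    rw [Finset.sum_comm]
    refine Finset.sum_congr rfl (fun ω _ => ?_)
    rw [Finset.sum_ite_mem]
    simp
  rw [h1, Finset.mul_sum]
  have h2 : ∀ e : E n, (2 * n - 3) * (univ.filter (fun ω : Ord n => e ∈ okl_both k ω)).card ≤
      (2 * k - 1) * Fintype.card (Ord n) := by
    intro e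
    calc (2 * n - 3) * (univ.filter (fun ω : Ord n => e ∈ okl_both k ω)).card
        ≤ (okl_M e).card *
          (univ.filter (fun ω : Ord n => okl_R (okl_M e) ω e < 2 * k - 1)).card := by
          apply Nat.mul_le_mul
          · have := okl_M_card e
            omega
          · apply Finset.card_le_card
            intro ω hω
            simp only [mem_filter, mem_univ, true_and] at hω ⊢
            exact okl_both_R ω e hω
      _ ≤ _ := okl_sym (okl_M e) (okl_self_mem_M e)
  calc _ ≤ ∑ e : E n, (2 * k - 1) * Fintype.card (Ord n) := Finset.sum_le_sum (fun e _ => h2 e)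
    _ = _ := by
      rw [Finset.sum_const, Finset.card_univ, smul_eq_mul]
      congr 1
      have := Sym2.card_subtype_not_diag (α := Fin n)
      rw [Fintype.card_fin] at this
      rw [← this]

theorem okl_card_pos (n : ℕ) : 0 < Fintype.card (Ord n) := by
  have h : Fintype.card (Fin (n.choose 2)) = Fintype.card (E n) := by
    have := Sym2.card_subtype_not_diag (α := Fin n)
    rw [Fintype.card_fin] at this
    rw [Fintype.card_fin, ← this]
  have : Nonempty (Ord n) := ⟨Fintype.equivOfCardEq h⟩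
  exact Fintype.card_pos

theorem okl_Pr_eq {n : ℕ} (A : Ord n → Prop) :
    Pr n A = ((univ.filter A).card : ℝ) / (Fintype.card (Ord n) : ℝ) := by
  unfold Pr
  rw [Nat.card_eq_fintype_card, Nat.card_eq_fintype_card, Fintype.card_subtype]

/-- The basic inequality. -/
theorem okl_ineq {n k : ℕ} (hk1 : 1 ≤ k) (hk : k + 1 ≤ n) (o δ : ℝ) :
    (k : ℝ) - ((n : ℝ) - 1) / 2 * (2 * k - 1) / (2 * n - 3) ≤
      (o + δ) * Pr n (fun ω => |((nearest k ω).card : ℝ) - o * n| ≤ δ * n) +
      k * (1 - Pr n (fun ω => |((nearest k ω).card : ℝ) - o * n| ≤ δ * n)) := by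
  set A : Ord n → Prop := fun ω => |((nearest k ω).card : ℝ) - o * n| ≤ δ * n with hA
  set Q : ℝ := (Fintype.card (Ord n) : ℝ) with hQ
  have hQpos : 0 < Q := by
    rw [hQ]
    exact_mod_cast okl_card_pos n
  have hn : (0 : ℝ) < n := by
    have : 0 < n := by omega
    exact_mod_cast this
  have hn2 : (2 : ℝ) ≤ n := by
    have : 2 ≤ n := by omega
    exact_mod_cast this
  -- upper bound
  have hX : ∀ ω : Ord n, ((nearest k ω).card : ℝ) ≤
      if A ω then (o + δ) * n else (k : ℝ) * n := by
    intro ω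
    split_ifs with h
    · have := (abs_le.mp h).2
      linarith
    · have := okl_count hk ω
      have h2 : (nearest k ω).card ≤ k * n := by omega
      exact_mod_cast h2
  have hcard : ((univ.filter (fun ω : Ord n => ¬ A ω)).card : ℝ) =
      Q - ((univ.filter A).card : ℝ) := by
    have h := Finset.card_filter_add_card_filter_not (s := (univ : Finset (Ord n))) A
    rw [Finset.card_univ] at h
    have h2 : ((univ.filter A).card : ℝ) + ((univ.filter (fun ω : Ord n => ¬ A ω)).card : ℝ) =
        Q := by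
      rw [hQ, ← h]
      push_cast
      rfl
    linarith
  have hup : ∑ ω : Ord n, ((nearest k ω).card : ℝ) ≤
      (o + δ) * n * ((univ.filter A).card : ℝ) +
        k * n * (Q - ((univ.filter A).card : ℝ)) := by
    calc ∑ ω : Ord n, ((nearest k ω).card : ℝ)
        ≤ ∑ ω : Ord n, (if A ω then (o + δ) * n else (k : ℝ) * n) :=
          Finset.sum_le_sum (fun ω _ => hX ω)
      _ = _ := by
          rw [Finset.sum_ite, Finset.sum_const, Finset.sum_const, nsmul_eq_mul, nsmul_eq_mul,
            hcard]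
          ring
  -- lower bound
  have hlow : ∑ ω : Ord n, ((nearest k ω).card : ℝ) =
      k * n * Q - ∑ ω : Ord n, ((okl_both k ω).card : ℝ) := by
    have h : ∀ ω : Ord n, ((nearest k ω).card : ℝ) = k * n - ((okl_both k ω).card : ℝ) := by
      intro ω
      have := okl_count hk ω
      have h2 : ((nearest k ω).card : ℝ) + ((okl_both k ω).card : ℝ) = k * n := by
        exact_mod_cast this
      linarith
    rw [Finset.sum_congr rfl (fun ω _ => h ω), Finset.sum_sub_distrib, Finset.sum_const,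
      Finset.card_univ, nsmul_eq_mul]
    ring
  have hY : (2 * (n : ℝ) - 3) * ∑ ω : Ord n, ((okl_both k ω).card : ℝ) ≤
      (n : ℝ) * ((n : ℝ) - 1) / 2 * ((2 * k - 1) * Q) := by
    have h := okl_EY (n := n) (k := k) (by omega)
    have h2 : (((2 * n - 3 : ℕ) : ℝ)) * ∑ ω : Ord n, ((okl_both k ω).card : ℝ) ≤
        ((n.choose 2 : ℕ) : ℝ) * (((2 * k - 1 : ℕ) : ℝ) * Q) := by
      rw [hQ]
      exact_mod_cast h
    rw [Nat.cast_sub (by omega), Nat.cast_sub (by omega), Nat.cast_choose_two] at h2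
    push_cast at h2
    exact h2
  have hpos : (0 : ℝ) < 2 * (n : ℝ) - 3 := by linarith
  have hY2 : ∑ ω : Ord n, ((okl_both k ω).card : ℝ) ≤
      (n : ℝ) * Q * (((n : ℝ) - 1) / 2 * (2 * k - 1) / (2 * n - 3)) := by
    rw [← mul_div_assoc, le_div_iff₀ hpos]
    linarith
  rw [okl_Pr_eq A]
  have hfin : (n : ℝ) * Q * ((k : ℝ) - ((n : ℝ) - 1) / 2 * (2 * k - 1) / (2 * n - 3)) ≤
      (n : ℝ) * Q * ((o + δ) * (((univ.filter A).card : ℝ) / Q) +
        k * (1 - ((univ.filter A).card : ℝ) / Q)) := by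
    have e1 : (n : ℝ) * Q * ((o + δ) * (((univ.filter A).card : ℝ) / Q) +
        k * (1 - ((univ.filter A).card : ℝ) / Q)) =
        (o + δ) * n * ((univ.filter A).card : ℝ) +
        k * n * (Q - ((univ.filter A).card : ℝ)) := by
      field_simp
    rw [e1]
    linarith
  exact le_of_mul_le_mul_left hfin (by positivity)

theorem okl_lim (k : ℕ) :
    Tendsto (fun n : ℕ => (k : ℝ) - ((n : ℝ) - 1) / 2 * (2 * k - 1) / (2 * n - 3)) atTop
      (𝓝 ((k : ℝ) / 2 + 1 / 4)) := by
  have h1 : Tendsto (fun n : ℕ => ((1 : ℝ) - 1 / (n : ℝ)) / (2 - 3 * (1 / (n : ℝ)))) atTop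
      (𝓝 ((1 - 0) / (2 - 3 * 0))) := by
    have h0 : Tendsto (fun n : ℕ => 1 / (n : ℝ)) atTop (𝓝 0) := tendsto_one_div_atTop_nhds_zero_nat
    apply Tendsto.div
    · exact tendsto_const_nhds.sub h0
    · exact tendsto_const_nhds.sub (h0.const_mul 3)
    · norm_num
  have h2 : Tendsto (fun n : ℕ => (k : ℝ) -
      (((1 : ℝ) - 1 / (n : ℝ)) / (2 - 3 * (1 / (n : ℝ)))) * ((2 * k - 1) / 2)) atTop
      (𝓝 ((k : ℝ) - ((1 - 0) / (2 - 3 * 0)) * ((2 * k - 1) / 2))) :=
    tendsto_const_nhds.sub (h1.mul_const _)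
  have e : (k : ℝ) - ((1 - 0) / (2 - 3 * 0)) * ((2 * k - 1) / 2) = (k : ℝ) / 2 + 1 / 4 := by
    ring
  rw [e] at h2
  refine h2.congr' ?_
  filter_upwards [eventually_ge_atTop 2] with n hn
  have hn0 : (0 : ℝ) < n := by
    have : 0 < n := by omega
    exact_mod_cast this
  have hn2 : (2 : ℝ) ≤ n := by exact_mod_cast hn
  have h3 : (2 : ℝ) * n - 3 ≠ 0 := by
    have : (0 : ℝ) < 2 * n - 3 := by linarith
    exact this.ne'
  have e2 : ((1 : ℝ) - 1 / (n : ℝ)) / (2 - 3 * (1 / (n : ℝ))) = ((n : ℝ) - 1) / (2 * n - 3) := by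
    have h4 : (2 : ℝ) - 3 * (1 / (n : ℝ)) = (2 * n - 3) / n := by
      field_simp
    have h5 : (1 : ℝ) - 1 / (n : ℝ) = (n - 1) / n := by
      field_simp
    rw [h4, h5]
    field_simp
  rw [e2]
  ring

theorem okl : S_OKL := by
  intro k hk o ho
  refine le_of_forall_pos_le_add (fun δ hδ => ?_)
  have hP := ho δ hδ
  have h1 : Tendsto (fun n : ℕ =>
      (o + δ) * Pr n (fun ω => |((nearest k ω).card : ℝ) - o * n| ≤ δ * n) +
      k * (1 - Pr n (fun ω => |((nearest k ω).card : ℝ) - o * n| ≤ δ * n))) atTop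
      (𝓝 ((o + δ) * 1 + k * (1 - 1))) :=
    (hP.const_mul _).add ((tendsto_const_nhds.sub hP).const_mul _)
  have e : (o + δ) * 1 + (k : ℝ) * (1 - 1) = o + δ := by ring
  rw [e] at h1
  refine le_of_tendsto_of_tendsto (okl_lim k) h1 ?_
  filter_upwards [eventually_ge_atTop (k + 1)] with n hn
  exact okl_ineq hk hn o δ

end Pool.Agent.N956.BG
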