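import Pool.Agent.N956.BG.Stm

/-!
# Project BG, leaf PH1 (helper482): the first phase
-/

set_option autoImplicit false

namespace Pool.Agent.N956.BG

open Finset Filter Topology
open scoped Classical

namespace Ph1

theorem deg_eq {n : ℕ} (F : Finset (E n)) (v : Fin n) :
    deg F v = (F.filter fun e : E n => v ∈ (e : Sym2 (Fin n))).card := rfl

theorem hand {n : ℕ} (F : Finset (E n)) : ∑ v, deg F v = 2 * F.card := by
  simp only [deg_eq, Finset.card_filter]
  rw [Finset.sum_comm]
  have h1 : ∀ e ∈ F, (∑ v : Fin n, if v ∈ (e : Sym2 (Fin n)) then 1 else 0) = 2 := by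
    intro e _
    rw [← Finset.card_filter]
    have h2 : (univ.filter fun v : Fin n => v ∈ (e : Sym2 (Fin n))) =
        (e : Sym2 (Fin n)).toFinset := by
      ext v
      rw [Finset.mem_filter, Sym2.mem_toFinset]
      exact ⟨fun h => h.2, fun h => ⟨Finset.mem_univ _, h⟩⟩
    rw [h2]
    exact Sym2.card_toFinset_of_not_isDiag _ e.2
  rw [Finset.sum_congr rfl h1, Finset.sum_const, smul_eq_mul, mul_comm]

theorem deg_mono {n : ℕ} {F F' : Finset (E n)} (h : F ⊆ F') (v : Fin n) : deg F v ≤ deg F' v := by
  rw [deg_eq, deg_eq]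
  exact Finset.card_le_card (Finset.filter_subset_filter _ h)

theorem B_succ {n : ℕ} (S : Strategy n) (ω : Ord n) (s : ℕ) : B S ω s ⊆ B S ω (s + 1) := by
  rw [B]
  split_ifs
  · exact Finset.subset_insert _ _
  · exact Finset.Subset.refl _
  · exact Finset.Subset.refl _

theorem B_mono {n : ℕ} (S : Strategy n) (ω : Ord n) {s t : ℕ} (h : s ≤ t) :
    B S ω s ⊆ B S ω t := by
  induction t, h using Nat.le_induction with
  | base => exact Finset.Subset.refl _
  | succ t _ ih => exact ih.trans (B_succ S ω t)

theorem deg_insert {n : ℕ} (F : Finset (E n)) (e : E n) (v : Fin n) :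
    deg (insert e F) v ≤ deg F v + if v ∈ (e : Sym2 (Fin n)) then 1 else 0 := by
  rw [deg_eq, deg_eq, Finset.filter_insert]
  split_ifs with h
  · exact Finset.card_insert_le _ _
  · exact le_rfl

theorem deg_le {n k th m : ℕ} {ω : Ord n} (hm : (B (St k th) ω m).card < th) :
    ∀ s, s ≤ m → ∀ v, deg (B (St k th) ω s) v ≤ k := by
  intro s
  induction s with
  | zero =>
    intro _ v
    have : deg (B (St k th) ω 0) v = 0 := by
      rw [deg_eq]
      rfl
    omega
  | succ s ih =>
    intro hs v
    have h1 := ih (by omega)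
    have hc : (B (St k th) ω s).card < th :=
      lt_of_le_of_lt (Finset.card_le_card (B_mono _ ω (by omega : s ≤ m))) hm
    rw [B]
    split_ifs with h2 h3
    · rcases h3 with h3 | h3
      · refine (deg_insert _ _ v).trans ?_
        split_ifs with h4
        · have := h3.2 v h4
          omega
        · have := h1 v
          omega
      · omega
    · exact h1 v
    · exact h1 v

end Ph1

open Ph1

theorem ph1 : S_PH1 := by
  intro n k th m ω hm
  refine ⟨univ.filter fun v => deg (B (St k th) ω m) v < k, ?_, ?_⟩
  · have h1 : ∑ v ∈ univ.filter (fun v => ¬ deg (B (St k th) ω m) v < k), k ≤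
        ∑ v, deg (B (St k th) ω m) v := by
      refine (Finset.sum_le_sum fun v hv => ?_).trans
        (Finset.sum_le_sum_of_subset (Finset.filter_subset _ _))
      exact not_lt.1 (Finset.mem_filter.1 hv).2
    rw [hand, Finset.sum_const, smul_eq_mul] at h1
    have h2 := Finset.card_filter_add_card_filter_not (s := (univ : Finset (Fin n)))
      (fun v => deg (B (St k th) ω m) v < k)
    rw [Finset.card_univ, Fintype.card_fin] at h2
    calc k * n = k * (univ.filter fun v => deg (B (St k th) ω m) v < k).card +
          (univ.filter fun v => ¬ deg (B (St k th) ω m) v < k).card * k := by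
            rw [mul_comm _ k, ← mul_add]
            exact congrArg (k * ·) h2.symm
      _ ≤ _ := by omega
  · have hsub : ((G ω m).filter fun e : E n => ∀ v ∈ (e : Sym2 (Fin n)),
        v ∈ univ.filter fun v => deg (B (St k th) ω m) v < k) ⊆ B (St k th) ω m := by
      intro e he
      obtain ⟨h1, h2⟩ := Finset.mem_filter.1 he
      have h3 : ((ω.symm e : Fin (n.choose 2)) : ℕ) < m := (Finset.mem_filter.1 h1).2
      have hc : (B (St k th) ω (ω.symm e : Fin (n.choose 2))).card < th :=
        lt_of_le_of_lt (Finset.card_le_card (B_mono _ ω h3.le)) hm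
      have h4 : e ∈ B (St k th) ω ((ω.symm e : Fin (n.choose 2)) + 1) := by
        rw [B, dif_pos (ω.symm e).2]
        have h5 : ω ⟨(ω.symm e : Fin (n.choose 2)), (ω.symm e).2⟩ = e := ω.apply_symm_apply e
        rw [h5, if_pos]
        · exact Finset.mem_insert_self _ _
        · left
          refine ⟨hc, fun v hv => ?_⟩
          exact lt_of_le_of_lt (deg_mono (B_mono _ ω h3.le) v) (Finset.mem_filter.1 (h2 v hv)).2
      exact B_mono _ ω h3 h4
    refine (Finset.card_le_card hsub).trans ?_
    have h1 := hand (B (St k th) ω m)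
    have h2 : ∑ v, deg (B (St k th) ω m) v ≤ ∑ _v : Fin n, k :=
      Finset.sum_le_sum fun v _ => deg_le hm m le_rfl v
    rw [h1, Finset.sum_const, Finset.card_univ, Fintype.card_fin, smul_eq_mul, mul_comm n k] at h2
    omega

end Pool.Agent.N956.BG
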