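import Pool.Agent.N956.BG.Stm

/-!
# Second phase: no edge at an unsaturated vertex is missed
-/

set_option autoImplicit false

namespace Pool.Agent.N956.BG

open Finset Filter Topology
open scoped Classical

noncomputable section

namespace Ph2

variable {n : ℕ}

theorem B_lt (S : Strategy n) (ω : Ord n) {s : ℕ} (h : s < n.choose 2) :
    B S ω (s + 1) =
      if S (ω ⟨s, h⟩) (B S ω s) then insert (ω ⟨s, h⟩) (B S ω s) else B S ω s := by
  rw [B, dif_pos h]

theorem B_ge (S : Strategy n) (ω : Ord n) {s : ℕ} (h : ¬ s < n.choose 2) :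
    B S ω (s + 1) = B S ω s := by
  rw [B, dif_neg h]

theorem B_succ (S : Strategy n) (ω : Ord n) (s : ℕ) : B S ω s ⊆ B S ω (s + 1) := by
  by_cases h : s < n.choose 2
  · rw [B_lt S ω h]
    split_ifs
    · exact subset_insert _ _
    · exact Subset.refl _
  · rw [B_ge S ω h]

theorem B_mono (S : Strategy n) (ω : Ord n) : Monotone (B S ω) :=
  monotone_nat_of_le_succ fun s => B_succ S ω s

theorem B_mem (S : Strategy n) (ω : Ord n) (s : ℕ) :
    ∀ e ∈ B S ω s, ((ω.symm e : Fin (n.choose 2)) : ℕ) < s := by
  induction s with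
  | zero =>
    intro e he
    rw [B] at he
    exact absurd he (notMem_empty e)
  | succ s ih =>
    intro e he
    by_cases h : s < n.choose 2
    · rw [B_lt S ω h] at he
      split_ifs at he
      · rcases mem_insert.1 he with rfl | he
        · rw [Equiv.symm_apply_apply]
          exact Nat.lt_succ_self s
        · exact (ih e he).trans (Nat.lt_succ_self s)
      · exact (ih e he).trans (Nat.lt_succ_self s)
    · rw [B_ge S ω h] at he
      exact (ih e he).trans (Nat.lt_succ_self s)

theorem deg_eq (F : Finset (E n)) (v : Fin n) :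
    deg F v = (F.filter (fun e : E n => v ∈ (e : Sym2 (Fin n)))).card := rfl

theorem deg_mono {F F' : Finset (E n)} (h : F ⊆ F') (v : Fin n) : deg F v ≤ deg F' v := by
  rw [deg_eq, deg_eq]
  exact card_le_card (filter_subset_filter _ h)

theorem deg_insert_le (F : Finset (E n)) (e : E n) (v : Fin n) :
    deg (insert e F) v ≤ deg F v + 1 := by
  rw [deg_eq, deg_eq]
  rw [filter_insert]
  split_ifs
  · exact card_insert_le _ _
  · exact Nat.le_succ _

theorem deg_insert_of_notMem (F : Finset (E n)) {e : E n} {v : Fin n}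
    (h : v ∉ (e : Sym2 (Fin n))) : deg (insert e F) v = deg F v := by
  rw [deg_eq, deg_eq]
  rw [filter_insert, if_neg h]

theorem deg_insert_of_mem {F : Finset (E n)} {e : E n} {v : Fin n}
    (h : v ∈ (e : Sym2 (Fin n))) (he : e ∉ F) : deg (insert e F) v = deg F v + 1 := by
  rw [deg_eq, deg_eq]
  rw [filter_insert, if_pos h, card_insert_of_notMem]
  intro h'
  exact he (mem_filter.1 h').1

theorem Gb_lt (ω : Ord n) {m t : ℕ} (hm : m ≤ t) (h : t < n.choose 2) :
    Gb ω m (t + 1) = insert (ω ⟨t, h⟩) (Gb ω m t) := by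
  ext e
  simp only [Gb, mem_filter, mem_univ, true_and, mem_insert]
  have h1 : e = ω ⟨t, h⟩ ↔ ((ω.symm e : Fin (n.choose 2)) : ℕ) = t := by
    constructor
    · rintro rfl
      rw [Equiv.symm_apply_apply]
    · intro h2
      rw [← Equiv.symm_apply_eq]
      exact Fin.ext h2
  rw [h1]
  omega

theorem Gb_ge (ω : Ord n) {m t : ℕ} (h : ¬ t < n.choose 2) :
    Gb ω m (t + 1) = Gb ω m t := by
  ext e
  simp only [Gb, mem_filter, mem_univ, true_and]
  have := (ω.symm e).2
  omega

end Ph2

open Ph2 in
theorem ph2 : S_PH2 := by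
  intro n k th m t ω hmt hth v
  induction t, hmt using Nat.le_induction with
  | base =>
    have h1 : deg (Gb ω m m) v = 0 := by
      rw [deg_eq]
      rw [card_eq_zero, filter_eq_empty_iff]
      intro e he
      simp only [Gb, mem_filter, mem_univ, true_and] at he
      omega
    rw [h1]
    simp
  | succ t hmt ih =>
    by_cases h : t < n.choose 2
    · rw [Gb_lt ω hmt h]
      have hB := deg_mono (B_succ (St k th) ω t) v
      by_cases hv : v ∈ ((ω ⟨t, h⟩ : E n) : Sym2 (Fin n))
      · by_cases hk : deg (B (St k th) ω t) v < k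
        · have h1 : St k th (ω ⟨t, h⟩) (B (St k th) ω t) := by
            right
            exact ⟨hth.trans (card_le_card (B_mono (St k th) ω hmt)), v, hv, hk⟩
          have h2 : ω ⟨t, h⟩ ∉ B (St k th) ω t := by
            intro h3
            have h4 := B_mem (St k th) ω t _ h3
            rw [Equiv.symm_apply_apply] at h4
            exact lt_irrefl _ h4
          rw [B_lt _ ω h, if_pos h1, deg_insert_of_mem hv h2]
          have h5 := deg_insert_le (Gb ω m t) (ω ⟨t, h⟩) v
          omega
        · omega
      · rw [deg_insert_of_notMem _ hv]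
        exact ih.trans hB
    · rw [Gb_ge ω h, B_ge _ ω h]
      exact ih

end

end Pool.Agent.N956.BG
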