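import Pool.Agent.N956.BG.Defs

/-!
# Statements of the leaves of project BG
-/

set_option autoImplicit false

namespace Pool.Agent.N956.BG

open Finset Filter Topology
open scoped Classical

noncomputable section

/-- CNT: bijections with prescribed values on `K` and with values in `F` on `J`. -/
def S_CNT : Prop := ∀ (P Q : Type) [Fintype P] [Fintype Q] (ω₀ : P ≃ Q) (K J : Finset P)
    (F : Finset Q), Disjoint K J →
  Nat.card {ω : P ≃ Q // (∀ i ∈ K, ω i = ω₀ i) ∧ ∀ j ∈ J, ω j ∈ F} =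
    ((F.filter (fun q => ∀ i ∈ K, ω₀ i ≠ q)).card).descFactorial J.card *
      (Fintype.card P - K.card - J.card).factorial

/-- HYP: hypergeometric tail. -/
def S_HYP : Prop := ∀ (n : ℕ) (J : Finset (Fin (n.choose 2))) (F : Finset (E n)) (r : ℕ),
  2 ≤ n → r ≤ J.card →
  Pr n (fun ω => (J.filter (fun i => ω i ∈ F)).card ≤ r) ≤
    (J.card.choose r : ℝ) * (1 - (F.card : ℝ) / (n.choose 2 : ℝ)) ^ (J.card - r)

/-- DENS: all large sets of vertices contain many of the first `M n` edges. -/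
def S_DENS : Prop := ∀ (k : ℕ) (α : ℝ), 0 < α → ∃ M : ℕ, ∀ᶠ n : ℕ in atTop,
  Pr n (fun ω => ∃ U : Finset (Fin n), α * n ≤ U.card ∧
    ((G ω (M * n)).filter (fun e : E n => ∀ v ∈ (e : Sym2 (Fin n)), v ∈ U)).card ≤ k * n)
    ≤ (1 / 2 : ℝ) ^ n

/-- ISO: a vertex chosen with the help of the edges with numbers in `[M n, N / 2)` is isolated in
the graph of the first `M n` edges with conditional probability at least `c`. -/
def S_ISO : Prop := ∀ M : ℕ, ∃ c : ℝ, 0 < c ∧ ∀ᶠ n : ℕ in atTop,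
  ∀ (A : Ord n → Prop) (f : Ord n → Fin n),
    (∀ ω ω' : Ord n, (∀ i : Fin (n.choose 2), M * n ≤ (i : ℕ) → (i : ℕ) < n.choose 2 / 2 →
      ω i = ω' i) → (A ω ↔ A ω') ∧ f ω = f ω') →
    c * Pr n A ≤ Pr n (fun ω => A ω ∧ deg (G ω (M * n)) (f ω) = 0)

/-- MIN: the edges with numbers in `[M n, N / 2)` have minimum degree at least `k`. -/
def S_MIN : Prop := ∀ k M : ℕ, Tendsto (fun n : ℕ =>
  Pr n (fun ω => ∃ v, deg (Gb ω (M * n) (n.choose 2 / 2)) v < k)) atTop (𝓝 0)

/-- BUD: the budget is kept. -/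
def S_BUD : Prop := ∀ (n k th : ℕ), 2 * th ≤ k * n → ∀ (ω : Ord n) (s : ℕ),
  (B (St k th) ω s).card ≤ k * n - th

/-- PH1: if the first phase lasts longer than `m` then a large set of vertices contains few of the
first `m` edges. -/
def S_PH1 : Prop := ∀ (n k th m : ℕ) (ω : Ord n), (B (St k th) ω m).card < th →
  ∃ U : Finset (Fin n), k * n ≤ k * U.card + 2 * th ∧
    ((G ω m).filter (fun e : E n => ∀ v ∈ (e : Sym2 (Fin n)), v ∈ U)).card ≤ k * n

/-- PH2: after the first phase no edge at an unsaturated vertex is missed. -/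
def S_PH2 : Prop := ∀ (n k th m t : ℕ) (ω : Ord n), m ≤ t → th ≤ (B (St k th) ω m).card →
  ∀ v, min k (deg (Gb ω m t) v) ≤ deg (B (St k th) ω t) v

/-- OKL: the constant `o_k` is at least `k/2 + 1/4`. -/
def S_OKL : Prop := ∀ k : ℕ, 1 ≤ k → ∀ o : ℝ, IsO k o → (k : ℝ) / 2 + 1 / 4 ≤ o

end

end Pool.Agent.N956.BG
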