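import Pool.Agent.N956.BG.Stm

/-!
# The success event (deterministic part)
-/

set_option autoImplicit false

namespace Pool.Agent.N956.BG

open Finset Filter Topology
open scoped Classical

noncomputable section

variable {n : ℕ}

theorem deg_mono {F F' : Finset (E n)} (h : F ⊆ F') (v : Fin n) : deg F v ≤ deg F' v :=
  card_le_card (filter_subset_filter _ h)

theorem deg_union (F F' : Finset (E n)) (v : Fin n) : deg (F ∪ F') v ≤ deg F v + deg F' v := by
  unfold deg
  rw [filter_union]
  exact card_union_le _ _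

theorem G_mono (ω : Ord n) {s t : ℕ} (h : s ≤ t) : G ω s ⊆ G ω t := by
  intro e he
  simp only [G, mem_filter, mem_univ, true_and] at he ⊢
  omega

theorem Gb_mono (ω : Ord n) (m : ℕ) {s t : ℕ} (h : s ≤ t) : Gb ω m s ⊆ Gb ω m t := by
  intro e he
  simp only [Gb, mem_filter, mem_univ, true_and] at he ⊢
  omega

theorem Gb_sub (ω : Ord n) (m t : ℕ) : Gb ω m t ⊆ G ω t := by
  intro e he
  simp only [G, Gb, mem_filter, mem_univ, true_and] at he ⊢
  omega

theorem G_split (ω : Ord n) (m t : ℕ) : G ω t ⊆ G ω m ∪ Gb ω m t := by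
  intro e he
  simp only [G, Gb, mem_filter, mem_univ, true_and, mem_union] at he ⊢
  omega

theorem Gb_empty (ω : Ord n) {m t : ℕ} (h : t ≤ m) : Gb ω m t = ∅ := by
  ext e
  simp only [Gb, mem_filter, mem_univ, true_and, notMem_empty, iff_false]
  omega

theorem deg_empty (v : Fin n) : deg (∅ : Finset (E n)) v = 0 := by simp [deg]

/-- The vertex saturated last, as a function of a family of graphs. -/
def last (v0 : Fin n) (k : ℕ) (g : ℕ → Finset (E n)) : Fin n :=
  if h : ∃ v, deg (g (sInf {t | ∀ v, k ≤ deg (g t) v} - 1)) v < k then h.choose else v0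

/-- The vertex saturated last by the edges with numbers in `[m, h)`. -/
def fin (v0 : Fin n) (k m h : ℕ) (ω : Ord n) : Fin n := last v0 k (fun t => Gb ω m (min t h))

theorem Gb_congr (m h : ℕ) (ω ω' : Ord n)
    (hh : ∀ i : Fin (n.choose 2), m ≤ (i : ℕ) → (i : ℕ) < h → ω i = ω' i) (t : ℕ) (ht : t ≤ h) :
    Gb ω m t = Gb ω' m t := by
  have key : ∀ ω ω' : Ord n, (∀ i : Fin (n.choose 2), m ≤ (i : ℕ) → (i : ℕ) < h → ω i = ω' i) →
      Gb ω m t ⊆ Gb ω' m t := by
    intro ω ω' hh e he
    simp only [Gb, mem_filter, mem_univ, true_and] at he ⊢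
    have h1 := hh (ω.symm e) he.1 (lt_of_lt_of_le he.2 ht)
    rw [Equiv.apply_symm_apply] at h1
    have h2 : ω'.symm e = ω.symm e := by
      rw [Equiv.symm_apply_eq]; exact h1
    rw [h2]; exact he
  exact Subset.antisymm (key ω ω' hh) (key ω' ω (fun i h1 h2 => (hh i h1 h2).symm))

theorem fin_congr (v0 : Fin n) (k m h : ℕ) (ω ω' : Ord n)
    (hh : ∀ i : Fin (n.choose 2), m ≤ (i : ℕ) → (i : ℕ) < h → ω i = ω' i) :
    fin v0 k m h ω = fin v0 k m h ω' := by
  unfold fin
  congr 1
  funext t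
  exact Gb_congr m h ω ω' hh _ (min_le_right _ _)

theorem suc (hP : S_PH2) (v0 : Fin n) (k th m h : ℕ) (ω : Ord n) (hk : 1 ≤ k) (_hm : m ≤ h)
    (hB : th ≤ (B (St k th) ω m).card) (hA : ∀ v, k ≤ deg (Gb ω m h) v)
    (hI : deg (G ω m) (fin v0 k m h ω) = 0) :
    ∀ v, k ≤ deg (B (St k th) ω (tau k ω)) v := by
  set g : ℕ → Finset (E n) := fun t => Gb ω m (min t h) with hg
  set T : ℕ := sInf {t | ∀ v, k ≤ deg (g t) v} with hT
  have hmem : h ∈ {t | ∀ v, k ≤ deg (g t) v} := by
    intro v
    simp only [hg, min_self]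
    exact hA v
  have hTm : ∀ v, k ≤ deg (g T) v := Nat.sInf_mem ⟨h, hmem⟩
  have hTh : T ≤ h := Nat.sInf_le hmem
  have hgT : g T = Gb ω m T := by simp only [hg, min_eq_left hTh]
  have hmT : m < T := by
    by_contra hc
    have h1 := hTm v0
    rw [hgT, Gb_empty ω (not_lt.mp hc), deg_empty] at h1
    omega
  have hT1 : ¬ ∀ v, k ≤ deg (g (T - 1)) v := by
    intro hc
    have h1 : T ≤ T - 1 := Nat.sInf_le (s := {t | ∀ v, k ≤ deg (g t) v}) hc
    omega
  have hex : ∃ v, deg (g (T - 1)) v < k := by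
    push Not at hT1
    exact hT1
  have hfin : deg (g (T - 1)) (fin v0 k m h ω) < k := by
    have h1 : fin v0 k m h ω = hex.choose := by
      unfold fin last
      rw [dif_pos hex]
    rw [h1]
    exact hex.choose_spec
  have hgT1 : g (T - 1) = Gb ω m (T - 1) := by
    simp only [hg]
    rw [min_eq_left (by omega)]
  rw [hgT1] at hfin
  have htau : tau k ω = T := by
    apply le_antisymm
    · apply Nat.sInf_le
      intro v
      have h1 := hTm v
      rw [hgT] at h1
      exact h1.trans (deg_mono (Gb_sub ω m T) v)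
    · by_contra hc
      push Not at hc
      have hne : (tau k ω) ∈ {t : ℕ | ∀ v, k ≤ deg (G ω t) v} := by
        apply Nat.sInf_mem
        refine ⟨T, fun v => ?_⟩
        have h1 := hTm v
        rw [hgT] at h1
        exact h1.trans (deg_mono (Gb_sub ω m T) v)
      have h1 : k ≤ deg (G ω (tau k ω)) (fin v0 k m h ω) := hne _
      have h2 : deg (G ω (tau k ω)) (fin v0 k m h ω) ≤
          deg (G ω m) (fin v0 k m h ω) + deg (Gb ω m (tau k ω)) (fin v0 k m h ω) :=
        (deg_mono (G_split ω m _) _).trans (deg_union _ _ _)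
      have h3 : deg (Gb ω m (tau k ω)) (fin v0 k m h ω) ≤
          deg (Gb ω m (T - 1)) (fin v0 k m h ω) := deg_mono (Gb_mono ω m (by omega)) _
      omega
  rw [htau]
  intro v
  have h1 := hP n k th m T ω hmT.le hB v
  have h2 := hTm v
  rw [hgT] at h2
  rw [min_eq_left h2] at h1
  exact h1

end

end Pool.Agent.N956.BG
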